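import Pool.Agent.W360.MQ.All
import Pool.Agent.Helper188.Morrey.Support

/-! # Frame-indifferent functions of degree two: the support inequality

`w (α, β)` is a function of the real-linear map `h ↦ α h + β h̄` of the plane, invariant under
multiplication by complex numbers of modulus one from the left, homogeneous of degree two and
rank-one convex. -/

set_option autoImplicit false

namespace Pool.Agent.N797.MR

open Set Filter Topology
open scoped ComplexConjugate

/-- the class of functions -/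
structure Cl (w : ℂ × ℂ → ℝ) : Prop where
  inv : ∀ (l : ℂ) (a b : ℂ), l ≠ 0 → w (l * a, l * b) = ‖l‖ ^ 2 * w (a, b)
  roc : ∀ F H : ℂ × ℂ, ‖H.1‖ = ‖H.2‖ → ∀ t : ℝ, 0 ≤ t → t ≤ 1 →
    w (F + t • H) ≤ (1 - t) * w F + t * w (F + H)

/-- the matrix of `h ↦ α h + β h̄` -/
noncomputable def bac (F : ℂ × ℂ) : Matrix (Fin 2) (Fin 2) ℝ :=
  !![(F.1 + F.2).re, -(F.1 - F.2).im; (F.1 + F.2).im, (F.1 - F.2).re]

open Pool.Agent.W360.MQ (cab)

theorem cab_bac (F : ℂ × ℂ) : cab (bac F) = F := by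
  unfold cab bac
  ext <;> simp <;> ring_nf <;> exact Complex.re_add_im _

theorem bac_cab (A : Matrix (Fin 2) (Fin 2) ℝ) : bac (cab A) = A := by
  unfold bac cab
  ext i j
  fin_cases i <;> fin_cases j <;>
    simp <;> ring

theorem cab_add (A B : Matrix (Fin 2) (Fin 2) ℝ) : cab (A + B) = cab A + cab B := by
  unfold cab
  ext <;> simp <;> ring

theorem cab_smul (c : ℝ) (A : Matrix (Fin 2) (Fin 2) ℝ) : cab (c • A) = c • cab A := by
  unfold cab
  ext <;> simp <;> ring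

theorem bac_add (F H : ℂ × ℂ) : bac (F + H) = bac F + bac H := by
  unfold bac
  ext i j
  fin_cases i <;> fin_cases j <;> simp <;> ring

theorem bac_smul (c : ℝ) (F : ℂ × ℂ) : bac (c • F) = c • bac F := by
  unfold bac
  ext i j
  fin_cases i <;> fin_cases j <;> simp <;> ring

theorem det_bac (F : ℂ × ℂ) : (bac F).det = ‖F.1‖ ^ 2 - ‖F.2‖ ^ 2 := by
  unfold bac
  rw [Matrix.det_fin_two_of, ← Complex.normSq_eq_norm_sq, ← Complex.normSq_eq_norm_sq,
    Complex.normSq_apply, Complex.normSq_apply]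
  simp only [Complex.add_re, Complex.sub_re, Complex.add_im, Complex.sub_im]
  ring

theorem Cl.mat {w : ℂ × ℂ → ℝ} (hw : Cl w) :
    Pool.Agent.Helper188.Morrey.RankOneConvex (fun A => w (cab A)) := by
  intro F H hH t h0 h1
  have hd : H.det = 0 := Pool.Agent.Helper188.Morrey.det_eq_zero_of_rank hH.le
  have hn : ‖(cab H).1‖ = ‖(cab H).2‖ := by
    have h2 := det_bac (cab H)
    rw [bac_cab, hd] at h2
    have h3 : ‖(cab H).1‖ ^ 2 = ‖(cab H).2‖ ^ 2 := by linarith
    exact (sq_eq_sq₀ (norm_nonneg _) (norm_nonneg _)).1 h3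
  have h2 := hw.roc (cab F) (cab H) hn t h0 h1
  have e1 : cab ((1 - t) • F + t • (F + H)) = cab F + t • cab H := by
    have : (1 - t) • F + t • (F + H) = F + t • H := by module
    rw [this, cab_add, cab_smul]
  have e2 : cab (F + H) = cab F + cab H := cab_add F H
  beta_reduce
  rw [e1, e2]
  exact h2

theorem Cl.cont {w : ℂ × ℂ → ℝ} (hw : Cl w) : Continuous w := by
  have h1 := Pool.Agent.Helper188.Morrey.RankOneConvex.continuous hw.mat
  have hb : Continuous bac := by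
    refine continuous_matrix fun i j => ?_
    unfold bac
    fin_cases i <;> fin_cases j <;> simp <;> fun_prop
  have h2 : w = (fun A => w (cab A)) ∘ bac := by
    funext F
    simp [Function.comp, cab_bac]
  rw [h2]
  exact h1.comp hb

/-- the subgradient in one chart -/
theorem Cl.sub0 {w : ℂ × ℂ → ℝ} (hw : Cl w) :
    ∃ g : ℂ, ∀ x : ℂ, w (1, 0) + (g * x).re ≤ w (1 - x, x) := by
  obtain ⟨l, hl⟩ := Pool.Agent.Helper188.Morrey.exists_support hw.mat (bac (1, 0))
  set E01 : Matrix (Fin 2) (Fin 2) ℝ := !![0, 1; 0, 0] with hE01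
  set E11 : Matrix (Fin 2) (Fin 2) ℝ := !![0, 0; 0, 1] with hE11
  refine ⟨⟨-2 * l E11, -2 * l E01⟩, fun x => ?_⟩
  have h1 := hl (bac (-x, x)) (by rw [det_bac]; simp)
  have h2 : bac (-x, x) = (2 * x.im) • E01 + (-2 * x.re) • E11 := by
    unfold bac
    ext i j
    fin_cases i <;> fin_cases j <;> simp [hE01, hE11] <;> ring
  have h3 : l (bac (-x, x)) = 2 * x.im * l E01 + -2 * x.re * l E11 := by
    rw [h2, map_add, map_smul, map_smul, smul_eq_mul, smul_eq_mul]
  rw [h3] at h1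
  simp only [cab_add, cab_bac, Prod.mk_add_mk, zero_add] at h1
  have h4 : ((⟨-2 * l E11, -2 * l E01⟩ : ℂ) * x).re = 2 * x.im * l E01 + -2 * x.re * l E11 := by
    rw [Complex.mul_re]
    ring
  rw [h4, sub_eq_add_neg]
  exact h1

theorem sq_mul_div (s z : ℂ) (hs : s ≠ 0) : ‖s‖ ^ 2 * (z / s).re = (z * conj s).re := by
  have h1 : z / s = (z * conj s) / ((‖s‖ ^ 2 : ℝ) : ℂ) := by
    have h2 : ((‖s‖ ^ 2 : ℝ) : ℂ) = s * conj s := by
      rw [Complex.mul_conj, Complex.normSq_eq_norm_sq]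
    rw [h2]
    have h3 : conj s ≠ 0 := by simpa using hs
    field_simp
  have h4 : (‖s‖ ^ 2 : ℝ) ≠ 0 := by positivity
  rw [h1, Complex.div_ofReal_re]
  field_simp

/-- the support inequality along rank-one directions -/
theorem Cl.star {w : ℂ × ℂ → ℝ} (hw : Cl w) : ∃ c0 : ℂ, ∀ H1 H2 : ℂ, ‖H1‖ = ‖H2‖ →
    w (1, 0) + 2 * w (1, 0) * H1.re + (c0 * H2).re ≤ w (1 + H1, H2) := by
  obtain ⟨g, hg⟩ := hw.sub0
  set w0 := w (1, 0) with hw0
  refine ⟨g + 2 * w0, fun H1 H2 hH => ?_⟩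
  set S : ℂ := H1 + H2 with hS
  have key : ∀ᶠ t : ℝ in 𝓝[>] 0,
      2 * S.re * w0 + t * ‖S‖ ^ 2 * w0 + (g * H2 * conj (1 + t * S)).re ≤ w (1 + H1, H2) - w0 := by
    have hlim : Tendsto (fun t : ℝ => (1 + t * S : ℂ)) (𝓝[>] 0) (𝓝 (1 + (0 : ℝ) * S)) := by
      have : Continuous (fun t : ℝ => (1 + t * S : ℂ)) := by fun_prop
      exact (this.tendsto 0).mono_left nhdsWithin_le_nhds
    have hne : ∀ᶠ t : ℝ in 𝓝[>] 0, (1 + t * S : ℂ) ≠ 0 := by
      refine hlim.eventually_ne ?_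
      simp
    have hle1 : ∀ᶠ t : ℝ in 𝓝[>] 0, t < 1 :=
      mem_of_superset (Ioo_mem_nhdsGT one_pos) fun t ht => ht.2
    filter_upwards [hne, hle1, self_mem_nhdsWithin] with t ht ht1 ht0
    have ht0' : (0 : ℝ) < t := ht0
    set s : ℂ := 1 + t * S with hs
    have e1 : w (1 + t * H1, t * H2) = ‖s‖ ^ 2 * w (1 - t * H2 / s, t * H2 / s) := by
      rw [← hw.inv s _ _ ht]
      congr 1
      ext1
      · simp only
        rw [mul_sub, mul_div_cancel₀ _ ht, hs, hS]
        ring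
      · simp only
        rw [mul_div_cancel₀ _ ht]
    have e2 := hg (t * H2 / s)
    have e3 := hw.roc (1, 0) (H1, H2) hH t ht0'.le ht1.le
    have e4 : ((1 : ℂ), (0 : ℂ)) + t • (H1, H2) = (1 + t * H1, t * H2) := by
      ext1 <;> simp
    have e5 : ((1 : ℂ), (0 : ℂ)) + (H1, H2) = (1 + H1, H2) := by
      ext1 <;> simp
    rw [e4, e5, e1] at e3
    have e6 : ‖s‖ ^ 2 = 1 + 2 * t * S.re + t ^ 2 * ‖S‖ ^ 2 := by
      rw [hs, ← Complex.normSq_eq_norm_sq, ← Complex.normSq_eq_norm_sq, Complex.normSq_apply,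
        Complex.normSq_apply]
      simp
      ring
    have e7 : ‖s‖ ^ 2 * (g * (t * H2 / s)).re = t * (g * H2 * conj s).re := by
      have h1 : g * (t * H2 / s) = (g * (t * H2)) / s := by ring
      rw [h1, sq_mul_div s _ ht]
      have h2 : g * (t * H2) * conj s = (t : ℂ) * (g * H2 * conj s) := by ring
      rw [h2, Complex.re_ofReal_mul]
    have e8 : ‖s‖ ^ 2 * (w0 + (g * (t * H2 / s)).re) ≤ (1 - t) * w0 + t * w (1 + H1, H2) :=
      (mul_le_mul_of_nonneg_left e2 (by positivity)).trans e3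
    rw [mul_add, e7, e6] at e8
    have e9 : t * (2 * S.re * w0 + t * ‖S‖ ^ 2 * w0 + (g * H2 * conj s).re)
        ≤ t * (w (1 + H1, H2) - w0) := by linarith
    exact le_of_mul_le_mul_left e9 ht0'
  have hlim : Tendsto (fun t : ℝ => 2 * S.re * w0 + t * ‖S‖ ^ 2 * w0
      + (g * H2 * conj (1 + t * S)).re) (𝓝[>] 0)
      (𝓝 (2 * S.re * w0 + 0 * ‖S‖ ^ 2 * w0 + (g * H2 * conj (1 + (0 : ℝ) * S)).re)) := by
    have : Continuous (fun t : ℝ => 2 * S.re * w0 + t * ‖S‖ ^ 2 * w0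
      + (g * H2 * conj (1 + t * S)).re) := by fun_prop
    exact (this.tendsto 0).mono_left nhdsWithin_le_nhds
  have hfin := le_of_tendsto hlim key
  simp only [Complex.ofReal_zero, zero_mul, add_zero, map_one, mul_one] at hfin
  have e : ((g + 2 * w0) * H2).re = (g * H2).re + 2 * w0 * H2.re := by
    rw [add_mul, Complex.add_re]
    congr 1
    have : (2 * (w0 : ℂ)) * H2 = ((2 * w0 : ℝ) : ℂ) * H2 := by push_cast; ring
    rw [this, Complex.re_ofReal_mul]
  rw [e]
  rw [hS, Complex.add_re] at hfin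
  linarith

end Pool.Agent.N797.MR
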