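import Pool.Agent.N797.MR.Poly

/-! # Finite polyconvex functions are quasiconvex -/

set_option autoImplicit false

namespace Pool.Agent.N797.MR

open Set Filter Topology MeasureTheory
open scoped ComplexConjugate
open Pool.Agent.W360.MQ (cab QA Quasiconvex)
open Pool.Agent.W488.IW (V Idx gd box)
open Pool.Agent.W978.MQ (G gd_cont w_int)
open Pool.Agent.W439.BQ.FlowF (vol_cube)

theorem poly_cont {w : ℂ × ℂ → ℝ} {P : (ℂ × ℂ) × ℝ → ℝ} (hP : ConvexOn ℝ univ P)
    (h : ∀ F, w F = P (F, ‖F.1‖ ^ 2 - ‖F.2‖ ^ 2)) : Continuous w := by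
  have hcont : Continuous P := continuousOn_univ.1 (hP.continuousOn isOpen_univ)
  have h2 : w = fun F => P (F, ‖F.1‖ ^ 2 - ‖F.2‖ ^ 2) := funext h
  rw [h2]
  exact hcont.comp (by fun_prop)

theorem poly_qa {w : ℂ × ℂ → ℝ} {P : (ℂ × ℂ) × ℝ → ℝ} (hP : ConvexOn ℝ univ P)
    (h : ∀ F, w F = P (F, ‖F.1‖ ^ 2 - ‖F.2‖ ^ 2)) : QA w := by
  intro F0 N c
  have hcont : Continuous P := continuousOn_univ.1 (hP.continuousOn isOpen_univ)
  have hg := gd_cont (box N) c
  have : IsProbabilityMeasure (volume.restrict (Icc (0 : V) 1)) := by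
    constructor
    rw [Measure.restrict_apply_univ]
    have h := vol_cube
    rw [Measure.real] at h
    exact (ENNReal.toReal_eq_one_iff _).1 h
  have c1 : Continuous (fun x : V => F0 + gd (box N) c x) := continuous_const.add hg
  have c0 : Continuous (fun F : ℂ × ℂ => ‖F.1‖ ^ 2 - ‖F.2‖ ^ 2) := by fun_prop
  have c2 : Continuous (fun x : V => ‖(F0 + gd (box N) c x).1‖ ^ 2 -
      ‖(F0 + gd (box N) c x).2‖ ^ 2) := c0.comp c1
  have c3 : Continuous (fun x : V => (F0 + gd (box N) c x, ‖(F0 + gd (box N) c x).1‖ ^ 2 -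
      ‖(F0 + gd (box N) c x).2‖ ^ 2)) := c1.prodMk c2
  have i1 : Integrable (fun x => F0 + gd (box N) c x) (volume.restrict (Icc (0 : V) 1)) :=
    c1.continuousOn.integrableOn_compact isCompact_Icc
  have i2 : Integrable (fun x => ‖(F0 + gd (box N) c x).1‖ ^ 2 -
      ‖(F0 + gd (box N) c x).2‖ ^ 2) (volume.restrict (Icc (0 : V) 1)) :=
    c2.continuousOn.integrableOn_compact isCompact_Icc
  have i3 : Integrable (fun x : V => (F0 + gd (box N) c x, ‖(F0 + gd (box N) c x).1‖ ^ 2 -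
      ‖(F0 + gd (box N) c x).2‖ ^ 2)) (volume.restrict (Icc (0 : V) 1)) :=
    c3.continuousOn.integrableOn_compact isCompact_Icc
  have i4 : Integrable (P ∘ fun x : V => (F0 + gd (box N) c x, ‖(F0 + gd (box N) c x).1‖ ^ 2 -
      ‖(F0 + gd (box N) c x).2‖ ^ 2)) (volume.restrict (Icc (0 : V) 1)) :=
    (hcont.comp c3).continuousOn.integrableOn_compact isCompact_Icc
  have hj := hP.map_integral_le (f := fun x : V => (F0 + gd (box N) c x,
    ‖(F0 + gd (box N) c x).1‖ ^ 2 - ‖(F0 + gd (box N) c x).2‖ ^ 2)) hcont.continuousOn isClosed_univ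
    (Eventually.of_forall fun _ => mem_univ _) i3 i4
  have e1 : ∫ x in Icc (0 : V) 1, (F0 + gd (box N) c x) = F0 := by
    have hi : Integrable (fun x => gd (box N) c x) (volume.restrict (Icc (0 : V) 1)) :=
      hg.continuousOn.integrableOn_compact isCompact_Icc
    rw [integral_add (integrable_const _) hi, Pool.Agent.W465.MQ.CVX.integral_gd, integral_const]
    simp
  have e2 : ∫ x in Icc (0 : V) 1, (‖(F0 + gd (box N) c x).1‖ ^ 2 -
      ‖(F0 + gd (box N) c x).2‖ ^ 2) = ‖F0.1‖ ^ 2 - ‖F0.2‖ ^ 2 := by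
    have h1 := Pool.Agent.W925.MQ.Det.main 1 F0 N c
    have h2 := Pool.Agent.W925.MQ.Det.main (-1) F0 N c
    rw [integral_const_mul] at h1 h2
    linarith
  rw [integral_pair i1 i2, e1, e2, ← h F0] at hj
  refine hj.trans (le_of_eq ?_)
  refine integral_congr_ae (Eventually.of_forall fun x => ?_)
  exact (h _).symm

theorem poly_quas {w : ℂ × ℂ → ℝ} {P : (ℂ × ℂ) × ℝ → ℝ} (hP : ConvexOn ℝ univ P)
    (h : ∀ F, w F = P (F, ‖F.1‖ ^ 2 - ‖F.2‖ ^ 2)) : Quasiconvex (fun A => w (cab A)) :=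
  Pool.Agent.W360.MQ.All.om w (poly_cont hP h) (poly_qa hP h)

end Pool.Agent.N797.MR
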