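import Pool.Agent.N797.MR.OneVar
import Pool.Agent.N797.MR.PolyQ

/-! # Adding a function of the determinant -/

set_option autoImplicit false

namespace Pool.Agent.N797.MR

open Set Filter Topology
open scoped ComplexConjugate
open Pool.Agent.W360.MQ (cab QA Quasiconvex)

/-- the positively homogeneous function with given slopes -/
noncomputable def ph (k k' x : ℝ) : ℝ := if 0 ≤ x then k * x else k' * x

theorem ph_mul (k k' : ℝ) {c : ℝ} (hc : 0 < c) (x : ℝ) : ph k k' (c * x) = c * ph k k' x := by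
  unfold ph
  by_cases h : 0 ≤ x
  · rw [if_pos h, if_pos (by positivity)]
    ring
  · rw [if_neg h, if_neg]
    · ring
    · push Not at h ⊢
      exact mul_neg_of_pos_of_neg hc h

theorem one_var {u f : ℝ → ℝ}
    (hc : ∀ ε : ℝ, 0 < ε → ConvexOn ℝ univ (fun x => u (ε * x) / ε + f x))
    {C : ℝ} (hb : ∀ᶠ x in 𝓝 (0 : ℝ), |f x - f 0| ≤ C * |x|) :
    ∃ k k' : ℝ, (∀ x, Tendsto (fun ε => (f (ε * x) - f 0) / ε) (𝓝[>] 0) (𝓝 (ph k k' x))) ∧
      ConvexOn ℝ univ (fun x => f x - ph k k' x) := by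
  obtain ⟨k, l, h1, -, h3, h4⟩ := right_half hc (hb.filter_mono nhdsWithin_le_nhds)
  have hc' : ∀ ε : ℝ, 0 < ε → ConvexOn ℝ univ
      (fun x => (fun y => u (-y)) (ε * x) / ε + (fun y => f (-y)) x) := by
    intro ε hε
    have h5 := (hc ε hε).comp_linearMap (-LinearMap.id : ℝ →ₗ[ℝ] ℝ)
    have e : (fun x => u (ε * x) / ε + f x) ∘ (-LinearMap.id : ℝ →ₗ[ℝ] ℝ) =
        (fun x => (fun y => u (-y)) (ε * x) / ε + (fun y => f (-y)) x) := by
      funext x
      simp [Function.comp]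
    rw [e] at h5
    exact h5
  have hb' : ∀ᶠ x in 𝓝[>] (0 : ℝ), |(fun y => f (-y)) x - (fun y => f (-y)) 0| ≤ C * |x| := by
    have h5 : Tendsto (fun x : ℝ => -x) (𝓝[>] 0) (𝓝 0) := by
      have : Continuous (fun x : ℝ => -x) := by fun_prop
      have h6 := this.tendsto 0
      rw [neg_zero] at h6
      exact h6.mono_left nhdsWithin_le_nhds
    filter_upwards [h5.eventually hb] with x hx
    simpa using hx
  obtain ⟨k2, l2, g1, -, g3, g4⟩ :=
    right_half (u := fun y => u (-y)) (f := fun y => f (-y)) hc' hb'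
  have hneg : ConvexOn ℝ (Iic 0) f := by
    refine ⟨convex_Iic 0, fun x hx y hy a b ha hb hab => ?_⟩
    have h5 := g4.2 (show -x ∈ Ici (0 : ℝ) by simpa using hx)
      (show -y ∈ Ici (0 : ℝ) by simpa using hy) ha hb hab
    have e : -(a • -x + b • -y) = a • x + b • y := by
      simp
      ring
    simp only [neg_neg] at h5
    rw [e] at h5
    exact h5
  refine ⟨k, -k2, ?_, ?_⟩
  · intro x
    rcases lt_trichotomy x 0 with hx | hx | hx
    · have e : ph k (-k2) x = k2 * (-x) := by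
        unfold ph
        rw [if_neg (not_le.2 hx)]
        ring
      rw [e]
      have h5 : Tendsto (fun ε : ℝ => ε * (-x)) (𝓝[>] 0) (𝓝[>] 0) := by
        refine tendsto_nhdsWithin_iff.2 ⟨?_, ?_⟩
        · have : Continuous (fun ε : ℝ => ε * (-x)) := by fun_prop
          have h6 := this.tendsto 0
          rw [zero_mul] at h6
          exact h6.mono_left nhdsWithin_le_nhds
        · filter_upwards [self_mem_nhdsWithin] with ε hε
          have hε' : (0 : ℝ) < ε := hε
          exact mul_pos hε' (by linarith)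
      refine ((g1.comp h5).mul_const (-x)).congr' ?_
      filter_upwards [self_mem_nhdsWithin] with ε hε
      have hε' : (0 : ℝ) < ε := hε
      have hx' : x ≠ 0 := hx.ne
      simp only [Function.comp, mul_neg, neg_neg, neg_zero]
      field_simp
    · subst hx
      have e : ph k (-k2) 0 = 0 := by unfold ph; simp
      rw [e]
      simp
    · have e : ph k (-k2) x = k * x := by
        unfold ph
        rw [if_pos hx.le]
      rw [e]
      have h5 : Tendsto (fun ε : ℝ => ε * x) (𝓝[>] 0) (𝓝[>] 0) := by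
        refine tendsto_nhdsWithin_iff.2 ⟨?_, ?_⟩
        · have : Continuous (fun ε : ℝ => ε * x) := by fun_prop
          have h6 := this.tendsto 0
          rw [zero_mul] at h6
          exact h6.mono_left nhdsWithin_le_nhds
        · filter_upwards [self_mem_nhdsWithin] with ε hε
          have hε' : (0 : ℝ) < ε := hε
          exact mul_pos hε' hx
      refine ((h1.comp h5).mul_const x).congr' ?_
      filter_upwards [self_mem_nhdsWithin] with ε hε
      have hε' : (0 : ℝ) < ε := hε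
      have hx' : x ≠ 0 := hx.ne'
      simp only [Function.comp]
      field_simp
  · refine glue ?_ ?_ ?_
    · refine ⟨convex_Ici 0, fun x hx y hy a b ha hb hab => ?_⟩
      have hx' : (0 : ℝ) ≤ x := hx
      have hy' : (0 : ℝ) ≤ y := hy
      have h5 := h4.2 hx hy ha hb hab
      have hz : 0 ≤ a * x + b * y := by positivity
      simp only [smul_eq_mul] at h5 ⊢
      unfold ph
      rw [if_pos hx', if_pos hy', if_pos hz]
      linarith
    · refine ⟨convex_Iic 0, fun x hx y hy a b ha hb hab => ?_⟩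
      have hx' : x ≤ 0 := hx
      have hy' : y ≤ 0 := hy
      have h5 := hneg.2 hx hy ha hb hab
      have hph : ∀ z : ℝ, z ≤ 0 → ph k (-k2) z = -k2 * z := by
        intro z hz
        unfold ph
        rcases hz.lt_or_eq with h | h
        · rw [if_neg (not_le.2 h)]
        · rw [h]; simp
      have hz : a * x + b * y ≤ 0 := by
        have := mul_nonpos_of_nonneg_of_nonpos ha hx'
        have := mul_nonpos_of_nonneg_of_nonpos hb hy'
        linarith
      simp only [smul_eq_mul] at h5 ⊢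
      rw [hph _ hx', hph _ hy', hph _ hz]
      linarith
    · intro x
      have e0 : ph k (-k2) 0 = 0 := by unfold ph; simp
      rw [e0, sub_zero]
      rcases le_or_gt 0 x with hx | hx
      · have := h3 x hx
        unfold ph
        rw [if_pos hx]
        linarith
      · have := g3 (-x) (by linarith)
        simp only [neg_neg, neg_zero] at this
        unfold ph
        rw [if_neg (not_le.2 hx)]
        linarith

/-- homogeneous part plus a function of the determinant -/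
theorem ext_main {v : ℂ × ℂ → ℝ} {f : ℝ → ℝ} {C : ℝ}
    (hinv : ∀ (l a b : ℂ), l ≠ 0 → v (l * a, l * b) = ‖l‖ ^ 2 * v (a, b))
    (hf : ∀ᶠ x in 𝓝 (0 : ℝ), |f x - f 0| ≤ C * |x|)
    (hroc : ∀ F H : ℂ × ℂ, ‖H.1‖ = ‖H.2‖ → ∀ t : ℝ, 0 ≤ t → t ≤ 1 →
      v (F + t • H) + f (‖(F + t • H).1‖ ^ 2 - ‖(F + t • H).2‖ ^ 2) ≤
        (1 - t) * (v F + f (‖F.1‖ ^ 2 - ‖F.2‖ ^ 2)) +
          t * (v (F + H) + f (‖(F + H).1‖ ^ 2 - ‖(F + H).2‖ ^ 2))) :
    ∃ P : (ℂ × ℂ) × ℝ → ℝ, ConvexOn ℝ univ P ∧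
      ∀ F, v F + f (‖F.1‖ ^ 2 - ‖F.2‖ ^ 2) = P (F, ‖F.1‖ ^ 2 - ‖F.2‖ ^ 2) := by
  set V : ℂ × ℂ → ℝ := fun F => v F + f (‖F.1‖ ^ 2 - ‖F.2‖ ^ 2) with hV
  have hrsm : ∀ (s : ℝ) (F : ℂ × ℂ), s ≠ 0 → v (s • F) = s ^ 2 * v F := by
    intro s F hs
    have h1 := hinv (s : ℂ) F.1 F.2 (by exact_mod_cast hs)
    have e : s • F = ((s : ℂ) * F.1, (s : ℂ) * F.2) := by
      ext1 <;> simp
    rw [e, h1]
    congr 1
    rw [Complex.norm_real, Real.norm_eq_abs, sq_abs]
  have hdsm : ∀ (s : ℝ) (F : ℂ × ℂ), ‖(s • F).1‖ ^ 2 - ‖(s • F).2‖ ^ 2 =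
      s ^ 2 * (‖F.1‖ ^ 2 - ‖F.2‖ ^ 2) := by
    intro s F
    simp only [Prod.smul_fst, Prod.smul_snd, norm_smul, Real.norm_eq_abs, mul_pow, sq_abs]
    ring
  -- the chart
  set u : ℝ → ℝ := fun y => v ((((1 + y) / 2 : ℝ) : ℂ), (((1 - y) / 2 : ℝ) : ℂ)) with hu
  have hline : ∀ F H : ℂ × ℂ, ‖H.1‖ = ‖H.2‖ → ConvexOn ℝ univ (fun x : ℝ => V (F + x • H)) := by
    intro F H hH
    refine ⟨convex_univ, fun x _ y _ a b ha hb hab => ?_⟩
    have h1 := hroc (F + x • H) ((y - x) • H) (by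
      simp only [Prod.smul_fst, Prod.smul_snd, norm_smul, hH]) b hb (by linarith)
    have e1 : F + x • H + b • (y - x) • H = F + (a • x + b • y) • H := by
      have : a = 1 - b := by linarith
      subst this
      simp only [smul_eq_mul]
      module
    have e2 : F + x • H + (y - x) • H = F + y • H := by module
    rw [e1, e2] at h1
    have : 1 - b = a := by linarith
    rw [this] at h1
    exact h1
  have hcv : ∀ ε : ℝ, 0 < ε → ConvexOn ℝ univ (fun x => u (ε * x) / ε + f x) := by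
    intro ε hε
    set s : ℝ := (√ε)⁻¹ with hs
    have hs0 : 0 < s := by positivity
    have hs2 : s ^ 2 = ε⁻¹ := by rw [hs, inv_pow, Real.sq_sqrt hε.le]
    have h1 := hline (s • ((((1 / 2 : ℝ)) : ℂ), (((1 / 2 : ℝ)) : ℂ)))
      (s • ((((ε / 2 : ℝ)) : ℂ), (((-ε / 2 : ℝ)) : ℂ))) (by
        simp only [Prod.smul_fst, Prod.smul_snd, norm_smul, Complex.norm_real]
        rw [neg_div, norm_neg])
    have e : ∀ x : ℝ, V (s • ((((1 / 2 : ℝ)) : ℂ), (((1 / 2 : ℝ)) : ℂ)) +
        x • s • ((((ε / 2 : ℝ)) : ℂ), (((-ε / 2 : ℝ)) : ℂ))) = u (ε * x) / ε + f x := by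
      intro x
      have e1 : s • ((((1 / 2 : ℝ)) : ℂ), (((1 / 2 : ℝ)) : ℂ)) +
        x • s • ((((ε / 2 : ℝ)) : ℂ), (((-ε / 2 : ℝ)) : ℂ)) =
        s • ((((1 + ε * x) / 2 : ℝ) : ℂ), (((1 - ε * x) / 2 : ℝ) : ℂ)) := by
        ext1
        · simp only [Prod.smul_mk, Prod.mk_add_mk, Complex.real_smul]
          push_cast
          ring
        · simp only [Prod.smul_mk, Prod.mk_add_mk, Complex.real_smul]
          push_cast
          ring
      rw [e1, hV]
      beta_reduce
      rw [hrsm _ _ hs0.ne', hdsm, hs2]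
      have e2 : ε⁻¹ * (‖((((1 + ε * x) / 2 : ℝ) : ℂ), (((1 - ε * x) / 2 : ℝ) : ℂ)).1‖ ^ 2 -
          ‖((((1 + ε * x) / 2 : ℝ) : ℂ), (((1 - ε * x) / 2 : ℝ) : ℂ)).2‖ ^ 2) = x := by
        simp only [Complex.norm_real, Real.norm_eq_abs, sq_abs]
        field_simp
        ring
      rw [e2, hu]
      ring
    have e' : (fun x => u (ε * x) / ε + f x) = fun x => V (s • ((((1 / 2 : ℝ)) : ℂ),
        (((1 / 2 : ℝ)) : ℂ)) + x • s • ((((ε / 2 : ℝ)) : ℂ), (((-ε / 2 : ℝ)) : ℂ))) :=
      funext fun x => (e x).symm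
    rw [e']
    exact h1
  obtain ⟨k, k', hk, hg⟩ := one_var hcv hf
  set w1 : ℂ × ℂ → ℝ := fun F => v F + ph k k' (‖F.1‖ ^ 2 - ‖F.2‖ ^ 2) with hw1
  have hlim : ∀ F : ℂ × ℂ, Tendsto (fun ε : ℝ => (V (√ε • F) - f 0) / ε) (𝓝[>] 0) (𝓝 (w1 F)) := by
    intro F
    have h1 := (hk (‖F.1‖ ^ 2 - ‖F.2‖ ^ 2)).const_add (v F)
    refine h1.congr' ?_
    filter_upwards [self_mem_nhdsWithin] with ε hε
    have hε' : (0 : ℝ) < ε := hε
    rw [hV]
    beta_reduce
    rw [hrsm _ _ (Real.sqrt_pos.2 hε').ne', hdsm, Real.sq_sqrt hε'.le]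
    field_simp
    ring
  have hCl : Cl w1 := by
    refine ⟨?_, ?_⟩
    · intro l a b hl
      rw [hw1]
      beta_reduce
      rw [hinv l a b hl]
      have e : ‖(l * a, l * b).1‖ ^ 2 - ‖(l * a, l * b).2‖ ^ 2 = ‖l‖ ^ 2 * (‖a‖ ^ 2 - ‖b‖ ^ 2) := by
        simp only [norm_mul]
        ring
      rw [e, ph_mul k k' (by positivity)]
      ring
    · intro F H hH t h0 h1
      refine le_of_tendsto_of_tendsto (hlim _)
        (((hlim F).const_mul (1 - t)).add ((hlim (F + H)).const_mul t)) ?_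
      filter_upwards [self_mem_nhdsWithin] with ε hε
      have hε' : (0 : ℝ) < ε := hε
      have h2 := hroc (√ε • F) (√ε • H) (by
        simp only [Prod.smul_fst, Prod.smul_snd, norm_smul, hH]) t h0 h1
      have e1 : √ε • F + t • √ε • H = √ε • (F + t • H) := by module
      have e2 : √ε • F + √ε • H = √ε • (F + H) := by module
      rw [e1, e2] at h2
      change V (√ε • (F + t • H)) ≤ (1 - t) * V (√ε • F) + t * V (√ε • (F + H)) at h2
      have e3 : (1 - t) * ((V (√ε • F) - f 0) / ε) + t * ((V (√ε • (F + H)) - f 0) / ε) =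
          ((1 - t) * V (√ε • F) + t * V (√ε • (F + H)) - f 0) / ε := by ring
      rw [e3]
      exact div_le_div_of_nonneg_right (by linarith) hε'.le
  obtain ⟨P, hP, hPw⟩ := hCl.poly
  refine ⟨fun X => P X + (f X.2 - ph k k' X.2), ?_, ?_⟩
  · exact hP.add (hg.comp_linearMap (LinearMap.snd ℝ (ℂ × ℂ) ℝ))
  · intro F
    have h1 := hPw F
    beta_reduce
    rw [← h1, hw1]
    ring

end Pool.Agent.N797.MR
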