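import Pool.Agent.N797.MR.Ext

/-! # The theorem for matrices -/

set_option autoImplicit false

namespace Pool.Agent.N797.MR

open Set Filter Topology
open scoped ComplexConjugate
open Pool.Agent.W360.MQ (cab QA Quasiconvex)

/-- the rotation given by a complex number of modulus one -/
def rt (z : ℂ) : Matrix (Fin 2) (Fin 2) ℝ := !![z.re, -z.im; z.im, z.re]

theorem rt_mem {z : ℂ} (hz : ‖z‖ = 1) : rt z ∈ Matrix.specialOrthogonalGroup (Fin 2) ℝ := by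
  have h1 : z.re * z.re + z.im * z.im = 1 := by
    have := Complex.normSq_eq_norm_sq z
    rw [hz, Complex.normSq_apply] at this
    linarith
  rw [Matrix.mem_specialOrthogonalGroup_iff]
  refine ⟨?_, ?_⟩
  · rw [Matrix.mem_orthogonalGroup_iff]
    ext i j
    fin_cases i <;> fin_cases j <;>
      simp [rt, Matrix.mul_apply, Fin.sum_univ_two, Matrix.star_eq_conjTranspose] <;> linarith
  · rw [rt, Matrix.det_fin_two_of]
    linarith

theorem bac_mul (l a b : ℂ) : bac (l * a, l * b) = rt l * bac (a, b) := by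
  unfold bac rt
  ext i j
  fin_cases i <;> fin_cases j <;>
    simp [Matrix.mul_apply, Fin.sum_univ_two] <;> ring

theorem rt_smul (c : ℝ) (z : ℂ) : rt (c * z) = c • rt z := by
  unfold rt
  ext i j
  fin_cases i <;> fin_cases j <;> simp

theorem mat_inv {w : Matrix (Fin 2) (Fin 2) ℝ → ℝ}
    (hinv : ∀ R ∈ Matrix.specialOrthogonalGroup (Fin 2) ℝ, ∀ A, w (R * A) = w A)
    (hhom : ∀ c : ℝ, 0 < c → ∀ A, w (c • A) = c ^ 2 * w A) (l a b : ℂ) (hl : l ≠ 0) :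
    w (bac (l * a, l * b)) = ‖l‖ ^ 2 * w (bac (a, b)) := by
  have hn : 0 < ‖l‖ := norm_pos_iff.2 hl
  have e : l = ((‖l‖ : ℝ) : ℂ) * (l / (‖l‖ : ℝ)) := by
    have : ((‖l‖ : ℝ) : ℂ) ≠ 0 := by exact_mod_cast hn.ne'
    field_simp
  have e2 : rt l = ‖l‖ • rt (l / (‖l‖ : ℝ)) := by
    conv_lhs => rw [e]
    exact rt_smul _ _
  have h1 : ‖l / (‖l‖ : ℝ)‖ = 1 := by
    rw [norm_div, Complex.norm_real, norm_norm]
    exact div_self hn.ne'
  rw [bac_mul, e2, Matrix.smul_mul, hhom _ hn, hinv _ (rt_mem h1)]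

theorem det_cab (A : Matrix (Fin 2) (Fin 2) ℝ) : ‖(cab A).1‖ ^ 2 - ‖(cab A).2‖ ^ 2 = A.det := by
  rw [← det_bac, bac_cab]

/-- `cab` as a linear map -/
noncomputable def cabL : Matrix (Fin 2) (Fin 2) ℝ →ₗ[ℝ] ℂ × ℂ where
  toFun := cab
  map_add' := cab_add
  map_smul' := cab_smul

theorem mat_main {w W : Matrix (Fin 2) (Fin 2) ℝ → ℝ} {f : ℝ → ℝ}
    (hinv : ∀ R ∈ Matrix.specialOrthogonalGroup (Fin 2) ℝ, ∀ A, w (R * A) = w A)
    (hhom : ∀ c : ℝ, 0 < c → ∀ A, w (c • A) = c ^ 2 * w A)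
    (hf : ∃ C : ℝ, ∀ᶠ x in 𝓝 (0 : ℝ), |f x - f 0| ≤ C * |x|)
    (hW : ∀ A, W A = w A + f A.det)
    (hroc : ∀ F H : Matrix (Fin 2) (Fin 2) ℝ, H.rank = 1 → ∀ t : ℝ, 0 ≤ t → t ≤ 1 →
      W ((1 - t) • F + t • (F + H)) ≤ (1 - t) * W F + t * W (F + H)) :
    (∃ P : Matrix (Fin 2) (Fin 2) ℝ × ℝ → ℝ, ConvexOn ℝ univ P ∧ ∀ A, W A = P (A, A.det)) ∧
      Quasiconvex W := by
  obtain ⟨C, hC⟩ := hf
  have hroc' : Pool.Agent.Helper188.Morrey.RankOneConvex W := hroc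
  have hd : ∀ F : ℂ × ℂ, W (bac F) = w (bac F) + f (‖F.1‖ ^ 2 - ‖F.2‖ ^ 2) := by
    intro F
    rw [hW, det_bac]
  obtain ⟨P, hP, hPw⟩ := ext_main (v := fun F => w (bac F)) (f := f) (C := C)
    (mat_inv hinv hhom) hC (by
      intro F H hH t h0 h1
      have h2 := hroc'.seg (bac F) (bac H) (by rw [det_bac, hH, sub_self]) h0 h1
      rw [← bac_smul, ← bac_add, ← bac_add, hd, hd, hd] at h2
      exact h2)
  have hWP : ∀ A, W A = P (cab A, ‖(cab A).1‖ ^ 2 - ‖(cab A).2‖ ^ 2) := by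
    intro A
    rw [← hPw]
    beta_reduce
    rw [bac_cab, det_cab, hW]
  refine ⟨⟨fun X => P (cab X.1, X.2), ?_, ?_⟩, ?_⟩
  · have h1 := hP.comp_linearMap (LinearMap.prodMap cabL (LinearMap.id : ℝ →ₗ[ℝ] ℝ))
    exact h1
  · intro A
    rw [hWP, det_cab]
  · have h1 := poly_quas (w := fun F => W (bac F)) hP (by
      intro F
      rw [hWP, cab_bac])
    have e : (fun A => (fun F => W (bac F)) (cab A)) = W := by
      funext A
      simp only [bac_cab]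
    rw [e] at h1
    exact h1

end Pool.Agent.N797.MR
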