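import Pool.Agent.N797.MR.PosP
import Pool.Agent.N797.MR.PolyQ

/-! # Positive determinant: the Morrey inequality for finite polyconvex functions -/

set_option autoImplicit false

namespace Pool.Agent.N797.MR

open Set Filter Topology MeasureTheory
open scoped ComplexConjugate
open Pool.Agent.W360.MQ (cab QA Quasiconvex)
open Pool.Agent.W523.MQ.OM (T T_cont)

/-- the determinant in complex notation -/
noncomputable def dt (F : ℂ × ℂ) : ℝ := ‖F.1‖ ^ 2 - ‖F.2‖ ^ 2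

theorem dt_cont : Continuous dt := by
  unfold dt
  fun_prop

theorem int_of {X : Type*} [MeasurableSpace X] {μ : Measure X} {f g : X → ℝ}
    (hf : AEStronglyMeasurable f μ) (hg : Integrable g μ) (hle : ∀ᵐ x ∂μ, g x ≤ f x)
    (hfin : ∫⁻ x, ENNReal.ofReal (f x) ∂μ ≠ ⊤) : Integrable f μ := by
  refine ⟨hf, ?_⟩
  have h1 : ∫⁻ x, ‖f x‖ₑ ∂μ ≤ ∫⁻ x, (ENNReal.ofReal (f x) + ‖g x‖ₑ) ∂μ := by
    refine lintegral_mono_ae ?_
    filter_upwards [hle] with x hx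
    rw [Real.enorm_eq_ofReal_abs, Real.enorm_eq_ofReal_abs]
    rcases le_total 0 (f x) with h | h
    · rw [abs_of_nonneg h]
      exact le_self_add
    · rw [ENNReal.ofReal_of_nonpos h, zero_add]
      refine ENNReal.ofReal_le_ofReal ?_
      rw [abs_of_nonpos h]
      have := neg_abs_le (g x)
      linarith
  have h2 : ∫⁻ x, (ENNReal.ofReal (f x) + ‖g x‖ₑ) ∂μ =
      ∫⁻ x, ENNReal.ofReal (f x) ∂μ + ∫⁻ x, ‖g x‖ₑ ∂μ :=
    lintegral_add_right' _ hg.1.enorm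
  refine lt_of_le_of_lt h1 ?_
  rw [h2]
  exact ENNReal.add_lt_top.2 ⟨lt_of_le_of_ne le_top hfin, hg.2⟩

theorem pos_quas {P : (ℂ × ℂ) × ℝ → ℝ} (hP : ConvexOn ℝ {X | 0 < X.2} P)
    {F₀ : Matrix (Fin 2) (Fin 2) ℝ} {Ω : Set (Fin 2 → ℝ)} (hΩ : IsOpen Ω)
    (hΩb : Bornology.IsBounded Ω) {ϑ : (Fin 2 → ℝ) → (Fin 2 → ℝ)} (hϑ : ∃ K, LipschitzWith K ϑ)
    (hz : ∀ x, x ∉ Ω → ϑ x = 0) (hF : 0 < dt (cab F₀))
    (hpos : ∀ᵐ x ∂(volume.restrict Ω), 0 < dt (T F₀ (fderiv ℝ ϑ x)))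
    (hfin : ∫⁻ x in Ω, ENNReal.ofReal (P (T F₀ (fderiv ℝ ϑ x), dt (T F₀ (fderiv ℝ ϑ x)))) ≠ ⊤) :
    IntegrableOn (fun x => P (T F₀ (fderiv ℝ ϑ x), dt (T F₀ (fderiv ℝ ϑ x)))) Ω ∧
      P (cab F₀, dt (cab F₀)) * (volume Ω).toReal ≤
        ∫ x in Ω, P (T F₀ (fderiv ℝ ϑ x), dt (T F₀ (fderiv ℝ ϑ x))) := by
  obtain ⟨l, hl⟩ := subgr op_pos hP (x0 := (cab F₀, dt (cab F₀))) hF
  set X0 : (ℂ × ℂ) × ℝ := (cab F₀, dt (cab F₀)) with hX0
  set Aff : (ℂ × ℂ) × ℝ → ℝ := fun X => P X0 + l (X - X0) with hAff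
  have hAc : ConvexOn ℝ univ Aff := by
    refine ⟨convex_univ, fun X _ Y _ a b ha hb hab => le_of_eq ?_⟩
    simp only [hAff, map_sub, map_add, map_smul, smul_eq_mul]
    have : b = 1 - a := by linarith
    subst this
    ring
  set w' : ℂ × ℂ → ℝ := fun F => Aff (F, ‖F.1‖ ^ 2 - ‖F.2‖ ^ 2) with hw'
  have hq : Quasiconvex (fun A => w' (cab A)) := poly_quas hAc (fun F => rfl)
  have hcw : Continuous w' := poly_cont hAc (fun F => rfl)
  have h1 : w' (cab F₀) * (volume Ω).toReal ≤ ∫ x in Ω, w' (T F₀ (fderiv ℝ ϑ x)) :=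
    hq F₀ Ω hΩ hΩb ϑ hϑ hz
  have h0 : w' (cab F₀) = P X0 := by
    show P X0 + l ((cab F₀, ‖(cab F₀).1‖ ^ 2 - ‖(cab F₀).2‖ ^ 2) - X0) = P X0
    have : ((cab F₀, ‖(cab F₀).1‖ ^ 2 - ‖(cab F₀).2‖ ^ 2) - X0 : (ℂ × ℂ) × ℝ) = 0 :=
      sub_self X0
    rw [this, map_zero, add_zero]
  rw [h0] at h1
  obtain ⟨K, hK⟩ := hϑ
  have hvol : volume Ω < ⊤ := hΩb.measure_lt_top
  have hI1 : IntegrableOn (fun x => w' (T F₀ (fderiv ℝ ϑ x))) Ω := by
    have hbd : ∃ C, ∀ x, ‖w' (T F₀ (fderiv ℝ ϑ x))‖ ≤ C := by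
      have hc : IsCompact (Metric.closedBall (0 : (Fin 2 → ℝ) →L[ℝ] (Fin 2 → ℝ)) K) :=
        isCompact_closedBall _ _
      obtain ⟨C, hC⟩ := hc.exists_bound_of_continuousOn
        ((hcw.comp (T_cont F₀)).continuousOn (s := Metric.closedBall 0 (K : ℝ)))
      refine ⟨C, fun x => hC _ ?_⟩
      rw [mem_closedBall_zero_iff]
      exact norm_fderiv_le_of_lipschitz ℝ hK
    obtain ⟨C, hC⟩ := hbd
    have hmeas : Measurable (fun x => w' (T F₀ (fderiv ℝ ϑ x))) :=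
      (hcw.comp (T_cont F₀)).measurable.comp (measurable_fderiv ℝ ϑ)
    exact Measure.integrableOn_of_bounded hvol.ne hmeas.aestronglyMeasurable
      (Filter.Eventually.of_forall hC)
  have hle : ∀ᵐ x ∂(volume.restrict Ω), w' (T F₀ (fderiv ℝ ϑ x)) ≤
      P (T F₀ (fderiv ℝ ϑ x), dt (T F₀ (fderiv ℝ ϑ x))) := by
    filter_upwards [hpos] with x hx
    exact hl (T F₀ (fderiv ℝ ϑ x), dt (T F₀ (fderiv ℝ ϑ x))) hx
  have hm : AEStronglyMeasurable (fun x => P (T F₀ (fderiv ℝ ϑ x), dt (T F₀ (fderiv ℝ ϑ x))))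
      (volume.restrict Ω) := by
    classical
    have hPm : Measurable ({X : (ℂ × ℂ) × ℝ | 0 < X.2}.piecewise P (fun _ => 0)) :=
      ContinuousOn.measurable_piecewise (hP.continuousOn op_pos) continuousOn_const
        op_pos.measurableSet
    have hTm : Measurable (fun x => T F₀ (fderiv ℝ ϑ x)) :=
      (T_cont F₀).measurable.comp (measurable_fderiv ℝ ϑ)
    have hg : Measurable (fun x => (T F₀ (fderiv ℝ ϑ x), dt (T F₀ (fderiv ℝ ϑ x)))) :=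
      hTm.prodMk (dt_cont.measurable.comp hTm)
    refine (hPm.comp hg).aestronglyMeasurable.congr ?_
    filter_upwards [hpos] with x hx
    simp only [Function.comp]
    exact piecewise_eq_of_mem _ _ _ hx
  have hI := int_of hm hI1 hle hfin
  exact ⟨hI, h1.trans (integral_mono_ae hI1 hI hle)⟩

end Pool.Agent.N797.MR
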