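import Pool.Agent.N797.MR.Mat
import Pool.Agent.N797.MR.PosQ

/-! # The theorem for matrices with positive determinant -/

set_option autoImplicit false

namespace Pool.Agent.N797.MR

open Set Filter Topology MeasureTheory
open scoped ComplexConjugate
open Pool.Agent.W360.MQ (cab QA Quasiconvex)
open Pool.Agent.W523.MQ.OM (T T_cont)

theorem dt_cab (A : Matrix (Fin 2) (Fin 2) ℝ) : dt (cab A) = A.det := det_cab A

theorem rt_det {z : ℂ} (hz : ‖z‖ = 1) : (rt z).det = 1 :=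
  (Matrix.mem_specialOrthogonalGroup_iff.1 (rt_mem hz)).2

theorem mat_inv_pos {p : ℕ} {w : Matrix (Fin 2) (Fin 2) ℝ → ℝ}
    (hinv : ∀ R ∈ Matrix.specialOrthogonalGroup (Fin 2) ℝ, ∀ A, 0 < A.det → w (R * A) = w A)
    (hhom : ∀ c : ℝ, 0 < c → ∀ A, 0 < A.det → w (c • A) = c ^ p * w A) (l a b : ℂ) (hl : l ≠ 0)
    (hab : ‖b‖ < ‖a‖) : w (bac (l * a, l * b)) = ‖l‖ ^ p * w (bac (a, b)) := by
  have hn : 0 < ‖l‖ := norm_pos_iff.2 hl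
  have e : l = ((‖l‖ : ℝ) : ℂ) * (l / (‖l‖ : ℝ)) := by
    have : ((‖l‖ : ℝ) : ℂ) ≠ 0 := by exact_mod_cast hn.ne'
    field_simp
  have e2 : rt l = ‖l‖ • rt (l / (‖l‖ : ℝ)) := by
    conv_lhs => rw [e]
    exact rt_smul _ _
  have h1 : ‖l / (‖l‖ : ℝ)‖ = 1 := by
    rw [norm_div, Complex.norm_real, norm_norm]
    exact div_self hn.ne'
  have h2 : 0 < (bac (a, b)).det := by
    rw [det_bac]
    exact (pos_iff a b).1 hab
  have h3 : 0 < (rt (l / (‖l‖ : ℝ)) * bac (a, b)).det := by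
    rw [Matrix.det_mul, rt_det h1, one_mul]
    exact h2
  rw [bac_mul, e2, Matrix.smul_mul, hhom _ hn _ h3, hinv _ (rt_mem h1) _ h2]

theorem mat_Cp {p : ℕ} {w : Matrix (Fin 2) (Fin 2) ℝ → ℝ}
    (hinv : ∀ R ∈ Matrix.specialOrthogonalGroup (Fin 2) ℝ, ∀ A, 0 < A.det → w (R * A) = w A)
    (hhom : ∀ c : ℝ, 0 < c → ∀ A, 0 < A.det → w (c • A) = c ^ p * w A)
    (hroc : ∀ F H : Matrix (Fin 2) (Fin 2) ℝ, H.rank = 1 → 0 < F.det → 0 < (F + H).det →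
      ∀ t : ℝ, 0 ≤ t → t ≤ 1 → w ((1 - t) • F + t • (F + H)) ≤ (1 - t) * w F + t * w (F + H)) :
    Cp p (fun F => w (bac F)) where
  inv := mat_inv_pos hinv hhom
  roc := by
    intro F H hH hF hFH t h0 h1
    by_cases hz : H = 0
    · subst hz
      simp only [smul_zero, add_zero]
      linarith
    · have hb : bac H ≠ 0 := by
        intro h
        apply hz
        rw [← cab_bac H, h]
        unfold cab
        simp
      have hr : (bac H).rank = 1 := Pool.Agent.Helper188.Morrey.rank_eq_one_of_det hb (by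
        rw [det_bac, hH, sub_self])
      have h2 := hroc (bac F) (bac H) hr (by
        rw [det_bac]
        exact (pos_iff _ _).1 hF) (by
        rw [← bac_add, det_bac]
        exact (pos_iff _ _).1 hFH) t h0 h1
      have e : (1 - t) • bac F + t • (bac F + bac H) = bac (F + t • H) := by
        rw [bac_add, bac_smul]
        module
      rw [e, ← bac_add] at h2
      exact h2

theorem mat_poly_pos {p : ℕ} (hp : p = 0 ∨ p = 2) {w : Matrix (Fin 2) (Fin 2) ℝ → ℝ}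
    (hinv : ∀ R ∈ Matrix.specialOrthogonalGroup (Fin 2) ℝ, ∀ A, 0 < A.det → w (R * A) = w A)
    (hhom : ∀ c : ℝ, 0 < c → ∀ A, 0 < A.det → w (c • A) = c ^ p * w A)
    (hroc : ∀ F H : Matrix (Fin 2) (Fin 2) ℝ, H.rank = 1 → 0 < F.det → 0 < (F + H).det →
      ∀ t : ℝ, 0 ≤ t → t ≤ 1 → w ((1 - t) • F + t • (F + H)) ≤ (1 - t) * w F + t * w (F + H)) :
    ∃ P : (ℂ × ℂ) × ℝ → ℝ, ConvexOn ℝ {X | 0 < X.2} P ∧
      ∀ A : Matrix (Fin 2) (Fin 2) ℝ, 0 < A.det → w A = P (cab A, A.det) := by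
  have h : ∃ P : (ℂ × ℂ) × ℝ → ℝ, ConvexOn ℝ {X | 0 < X.2} P ∧
      ∀ F : ℂ × ℂ, ‖F.2‖ < ‖F.1‖ → w (bac F) = P (F, ‖F.1‖ ^ 2 - ‖F.2‖ ^ 2) := by
    rcases hp with hp | hp
    · subst hp
      exact (mat_Cp hinv hhom hroc).poly0
    · subst hp
      exact (mat_Cp hinv hhom hroc).poly2
  obtain ⟨P, hP, hPw⟩ := h
  refine ⟨P, hP, fun A hA => ?_⟩
  have h1 := hPw (cab A) (by
    rw [pos_iff, det_cab]
    exact hA)
  rw [bac_cab, det_cab] at h1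
  exact h1

/-- finite polyconvex functions on the matrices with positive determinant -/
theorem mat_quas_pos {P : (ℂ × ℂ) × ℝ → ℝ} (hP : ConvexOn ℝ {X | 0 < X.2} P)
    {W : Matrix (Fin 2) (Fin 2) ℝ → ℝ}
    (hW : ∀ A : Matrix (Fin 2) (Fin 2) ℝ, 0 < A.det → W A = P (cab A, A.det))
    {F₀ : Matrix (Fin 2) (Fin 2) ℝ} (hF : 0 < F₀.det) {Ω : Set (Fin 2 → ℝ)} (hΩ : IsOpen Ω)
    (hΩb : Bornology.IsBounded Ω) {ϑ : (Fin 2 → ℝ) → (Fin 2 → ℝ)} (hϑ : ∃ K, LipschitzWith K ϑ)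
    (hz : ∀ x, x ∉ Ω → ϑ x = 0)
    (hpos : ∀ᵐ x ∂(volume.restrict Ω), 0 < (F₀ + LinearMap.toMatrix'
      ((fderiv ℝ ϑ x : (Fin 2 → ℝ) →L[ℝ] (Fin 2 → ℝ)) : (Fin 2 → ℝ) →ₗ[ℝ] (Fin 2 → ℝ))).det)
    (hfin : ∫⁻ x in Ω, ENNReal.ofReal (W (F₀ + LinearMap.toMatrix'
      ((fderiv ℝ ϑ x : (Fin 2 → ℝ) →L[ℝ] (Fin 2 → ℝ)) : (Fin 2 → ℝ) →ₗ[ℝ] (Fin 2 → ℝ)))) ≠ ⊤) :
    IntegrableOn (fun x => W (F₀ + LinearMap.toMatrix'
      ((fderiv ℝ ϑ x : (Fin 2 → ℝ) →L[ℝ] (Fin 2 → ℝ)) : (Fin 2 → ℝ) →ₗ[ℝ] (Fin 2 → ℝ)))) Ω ∧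
      W F₀ * (volume Ω).toReal ≤ ∫ x in Ω, W (F₀ + LinearMap.toMatrix'
        ((fderiv ℝ ϑ x : (Fin 2 → ℝ) →L[ℝ] (Fin 2 → ℝ)) :
          (Fin 2 → ℝ) →ₗ[ℝ] (Fin 2 → ℝ))) := by
  have hev : (fun x => W (F₀ + LinearMap.toMatrix'
      ((fderiv ℝ ϑ x : (Fin 2 → ℝ) →L[ℝ] (Fin 2 → ℝ)) : (Fin 2 → ℝ) →ₗ[ℝ] (Fin 2 → ℝ))))
      =ᵐ[volume.restrict Ω] fun x => P (T F₀ (fderiv ℝ ϑ x), dt (T F₀ (fderiv ℝ ϑ x))) := by
    filter_upwards [hpos] with x hx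
    rw [hW _ hx, ← dt_cab]
    rfl
  have hpos' : ∀ᵐ x ∂(volume.restrict Ω), 0 < dt (T F₀ (fderiv ℝ ϑ x)) := by
    filter_upwards [hpos] with x hx
    rw [← dt_cab] at hx
    exact hx
  have hfin' : ∫⁻ x in Ω, ENNReal.ofReal
      (P (T F₀ (fderiv ℝ ϑ x), dt (T F₀ (fderiv ℝ ϑ x)))) ≠ ⊤ := by
    have e := lintegral_congr_ae (hev.fun_comp ENNReal.ofReal)
    simp only [Function.comp] at e
    rw [← e]
    exact hfin
  obtain ⟨h1, h2⟩ := pos_quas hP hΩ hΩb hϑ hz (by rw [dt_cab]; exact hF) hpos' hfin'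
  refine ⟨h1.congr_fun_ae hev.symm, ?_⟩
  rw [integral_congr_ae hev, hW F₀ hF, ← dt_cab]
  exact h2

end Pool.Agent.N797.MR
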