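import Pool.Agent.N797.MR.MatPos

/-! # Invariance from one side: final forms -/

set_option autoImplicit false

namespace Pool.Agent.N797.MR

open Set Filter Topology MeasureTheory
open scoped ComplexConjugate
open Pool.Agent.W360.MQ (cab QA Quasiconvex)

theorem tr_mem {R : Matrix (Fin 2) (Fin 2) ℝ} (h : R ∈ Matrix.specialOrthogonalGroup (Fin 2) ℝ) :
    R.transpose ∈ Matrix.specialOrthogonalGroup (Fin 2) ℝ := by
  rw [Matrix.mem_specialOrthogonalGroup_iff] at h ⊢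
  refine ⟨?_, by rw [Matrix.det_transpose]; exact h.2⟩
  rw [Matrix.mem_orthogonalGroup_iff]
  have h2 := (Matrix.mem_orthogonalGroup_iff' (Fin 2) ℝ).1 h.1
  rw [Matrix.transpose_transpose]
  exact h2

/-- `bac` as a linear map -/
noncomputable def bacL : (ℂ × ℂ) →ₗ[ℝ] Matrix (Fin 2) (Fin 2) ℝ where
  toFun := bac
  map_add' := bac_add
  map_smul' := bac_smul

/-- finite polyconvex functions of matrices are quasiconvex -/
theorem mat_quas {W : Matrix (Fin 2) (Fin 2) ℝ → ℝ} {P : Matrix (Fin 2) (Fin 2) ℝ × ℝ → ℝ}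
    (hP : ConvexOn ℝ univ P) (hW : ∀ A, W A = P (A, A.det)) : Quasiconvex W := by
  have h1 := hP.comp_linearMap (LinearMap.prodMap bacL (LinearMap.id : ℝ →ₗ[ℝ] ℝ))
  have h2 := poly_quas (w := fun F => W (bac F)) (P := fun X => P (bac X.1, X.2)) h1 (by
    intro F
    rw [hW, det_bac])
  have e : (fun A => (fun F => W (bac F)) (cab A)) = W := by
    funext A
    simp only [bac_cab]
  rw [e] at h2
  exact h2

/-- the transpose as a linear map -/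
def trL : Matrix (Fin 2) (Fin 2) ℝ →ₗ[ℝ] Matrix (Fin 2) (Fin 2) ℝ where
  toFun := Matrix.transpose
  map_add' := fun _ _ => Matrix.transpose_add _ _
  map_smul' := fun _ _ => Matrix.transpose_smul _ _

theorem full_main {w W : Matrix (Fin 2) (Fin 2) ℝ → ℝ} {f : ℝ → ℝ}
    (hinv : (∀ R ∈ Matrix.specialOrthogonalGroup (Fin 2) ℝ, ∀ A, w (R * A) = w A) ∨
      (∀ R ∈ Matrix.specialOrthogonalGroup (Fin 2) ℝ, ∀ A, w (A * R) = w A))
    (hhom : ∀ c : ℝ, 0 < c → ∀ A, w (c • A) = c ^ 2 * w A)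
    (hf : ∃ C : ℝ, ∀ᶠ x in 𝓝 (0 : ℝ), |f x - f 0| ≤ C * |x|)
    (hW : ∀ A, W A = w A + f A.det)
    (hroc : ∀ F H : Matrix (Fin 2) (Fin 2) ℝ, H.rank = 1 → ∀ t : ℝ, 0 ≤ t → t ≤ 1 →
      W ((1 - t) • F + t • (F + H)) ≤ (1 - t) * W F + t * W (F + H)) :
    (∃ P : Matrix (Fin 2) (Fin 2) ℝ × ℝ → ℝ, ConvexOn ℝ univ P ∧ ∀ A, W A = P (A, A.det)) ∧
      Quasiconvex W := by
  rcases hinv with hinv | hinv
  · exact mat_main hinv hhom hf hW hroc
  · obtain ⟨⟨P, hP, hPW⟩, -⟩ := mat_main (w := fun A => w A.transpose)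
      (W := fun A => W A.transpose) (f := f) (by
        intro R hR A
        rw [Matrix.transpose_mul]
        exact hinv _ (tr_mem hR) _) (by
        intro c hc A
        rw [Matrix.transpose_smul]
        exact hhom c hc _) hf (by
        intro A
        rw [hW, Matrix.det_transpose]) (by
        intro F H hH t h0 h1
        simp only [Matrix.transpose_add, Matrix.transpose_smul]
        exact hroc _ _ (by rw [Matrix.rank_transpose]; exact hH) t h0 h1)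
    have h1 := hP.comp_linearMap (LinearMap.prodMap trL (LinearMap.id : ℝ →ₗ[ℝ] ℝ))
    have h2 : ∀ A, W A = (P ∘ (LinearMap.prodMap trL (LinearMap.id : ℝ →ₗ[ℝ] ℝ))) (A, A.det) := by
      intro A
      have h3 := hPW A.transpose
      rw [Matrix.transpose_transpose, Matrix.det_transpose] at h3
      exact h3
    exact ⟨⟨_, h1, h2⟩, mat_quas h1 h2⟩

theorem pos_main {p : ℕ} (hp : p = 0 ∨ p = 2) {w : Matrix (Fin 2) (Fin 2) ℝ → ℝ}
    (hinv : (∀ R ∈ Matrix.specialOrthogonalGroup (Fin 2) ℝ, ∀ A, 0 < A.det → w (R * A) = w A) ∨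
      (∀ R ∈ Matrix.specialOrthogonalGroup (Fin 2) ℝ, ∀ A, 0 < A.det → w (A * R) = w A))
    (hhom : ∀ c : ℝ, 0 < c → ∀ A, 0 < A.det → w (c • A) = c ^ p * w A)
    (hroc : ∀ F H : Matrix (Fin 2) (Fin 2) ℝ, H.rank = 1 → 0 < F.det → 0 < (F + H).det →
      ∀ t : ℝ, 0 ≤ t → t ≤ 1 → w ((1 - t) • F + t • (F + H)) ≤ (1 - t) * w F + t * w (F + H)) :
    ∃ P : Matrix (Fin 2) (Fin 2) ℝ × ℝ → ℝ, ConvexOn ℝ {X | 0 < X.2} P ∧
      ∀ A, 0 < A.det → w A = P (A, A.det) := by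
  rcases hinv with hinv | hinv
  · obtain ⟨P, hP, hPW⟩ := mat_poly_pos hp hinv hhom hroc
    have h1 := hP.comp_linearMap (LinearMap.prodMap cabL (LinearMap.id : ℝ →ₗ[ℝ] ℝ))
    exact ⟨_, h1, hPW⟩
  · obtain ⟨P, hP, hPW⟩ := mat_poly_pos hp (w := fun A => w A.transpose) (by
        intro R hR A hA
        rw [Matrix.transpose_mul]
        exact hinv _ (tr_mem hR) _ (by rw [Matrix.det_transpose]; exact hA)) (by
        intro c hc A hA
        rw [Matrix.transpose_smul]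
        exact hhom c hc _ (by rw [Matrix.det_transpose]; exact hA)) (by
        intro F H hH hF hFH t h0 h1
        simp only [Matrix.transpose_add, Matrix.transpose_smul]
        exact hroc _ _ (by rw [Matrix.rank_transpose]; exact hH)
          (by rw [Matrix.det_transpose]; exact hF)
          (by rw [← Matrix.transpose_add, Matrix.det_transpose]; exact hFH) t h0 h1)
    have h1 := hP.comp_linearMap (LinearMap.prodMap (cabL ∘ₗ trL) (LinearMap.id : ℝ →ₗ[ℝ] ℝ))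
    refine ⟨_, h1, fun A hA => ?_⟩
    have h3 := hPW A.transpose (by rw [Matrix.det_transpose]; exact hA)
    rw [Matrix.transpose_transpose, Matrix.det_transpose] at h3
    exact h3

/-- finite polyconvex functions on the matrices with positive determinant are quasiconvex there -/
theorem pos_quas' {P : Matrix (Fin 2) (Fin 2) ℝ × ℝ → ℝ} (hP : ConvexOn ℝ {X | 0 < X.2} P)
    {W : Matrix (Fin 2) (Fin 2) ℝ → ℝ}
    (hW : ∀ A : Matrix (Fin 2) (Fin 2) ℝ, 0 < A.det → W A = P (A, A.det))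
    {F₀ : Matrix (Fin 2) (Fin 2) ℝ} (hF : 0 < F₀.det) {Ω : Set (Fin 2 → ℝ)} (hΩ : IsOpen Ω)
    (hΩb : Bornology.IsBounded Ω) {ϑ : (Fin 2 → ℝ) → (Fin 2 → ℝ)} (hϑ : ∃ K, LipschitzWith K ϑ)
    (hz : ∀ x, x ∉ Ω → ϑ x = 0)
    (hpos : ∀ᵐ x ∂(volume.restrict Ω), 0 < (F₀ + LinearMap.toMatrix'
      ((fderiv ℝ ϑ x : (Fin 2 → ℝ) →L[ℝ] (Fin 2 → ℝ)) : (Fin 2 → ℝ) →ₗ[ℝ] (Fin 2 → ℝ))).det)
    (hfin : ∫⁻ x in Ω, ENNReal.ofReal (W (F₀ + LinearMap.toMatrix'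
      ((fderiv ℝ ϑ x : (Fin 2 → ℝ) →L[ℝ] (Fin 2 → ℝ)) : (Fin 2 → ℝ) →ₗ[ℝ] (Fin 2 → ℝ)))) ≠ ⊤) :
    IntegrableOn (fun x => W (F₀ + LinearMap.toMatrix'
      ((fderiv ℝ ϑ x : (Fin 2 → ℝ) →L[ℝ] (Fin 2 → ℝ)) : (Fin 2 → ℝ) →ₗ[ℝ] (Fin 2 → ℝ)))) Ω ∧
      W F₀ * (volume Ω).toReal ≤ ∫ x in Ω, W (F₀ + LinearMap.toMatrix'
        ((fderiv ℝ ϑ x : (Fin 2 → ℝ) →L[ℝ] (Fin 2 → ℝ)) :
          (Fin 2 → ℝ) →ₗ[ℝ] (Fin 2 → ℝ))) := by
  have h1 := hP.comp_linearMap (LinearMap.prodMap bacL (LinearMap.id : ℝ →ₗ[ℝ] ℝ))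
  refine mat_quas_pos (P := fun X => P (bac X.1, X.2)) h1 (fun A hA => ?_) hF hΩ hΩb hϑ hz hpos hfin
  rw [hW A hA, bac_cab]

end Pool.Agent.N797.MR
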