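import Mathlib

/-! # The one variable lemma -/

set_option autoImplicit false

namespace Pool.Agent.N797.MR

open Set Filter Topology

theorem mono_slope {h : ℝ → ℝ} (hh : ConvexOn ℝ univ h) {x y : ℝ} (hx : 0 < x) (hxy : x ≤ y) :
    (h x - h 0) / x ≤ (h y - h 0) / y := by
  have hy : 0 < y := hx.trans_le hxy
  have h1 := hh.2 (mem_univ y) (mem_univ 0) (show 0 ≤ x / y by positivity)
    (show 0 ≤ 1 - x / y by rw [sub_nonneg, div_le_one hy]; exact hxy) (by ring)
  simp only [smul_eq_mul, mul_zero, add_zero] at h1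
  have e : x / y * y = x := by field_simp
  rw [e] at h1
  rw [div_le_div_iff₀ hx hy]
  have h3 : y * h x ≤ x * h y + (y - x) * h 0 := by
    have h4 := mul_le_mul_of_nonneg_left h1 hy.le
    have e2 : y * (x / y * h y + (1 - x / y) * h 0) = x * h y + (y - x) * h 0 := by
      field_simp
    linarith
  nlinarith

theorem slope_lb {h : ℝ → ℝ} (hh : ConvexOn ℝ univ h) {x : ℝ} (hx : 0 < x) :
    h 0 - h (-1) ≤ (h x - h 0) / x := by
  have h1 := hh.2 (mem_univ x) (mem_univ (-1)) (show 0 ≤ 1 / (1 + x) by positivity)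
    (show 0 ≤ x / (1 + x) by positivity) (by field_simp)
  simp only [smul_eq_mul] at h1
  have e : 1 / (1 + x) * x + x / (1 + x) * -1 = 0 := by ring
  rw [e] at h1
  rw [le_div_iff₀ hx]
  have h4 := mul_le_mul_of_nonneg_left h1 (show 0 ≤ 1 + x by positivity)
  have e2 : (1 + x) * (1 / (1 + x) * h x + x / (1 + x) * h (-1)) = h x + x * h (-1) := by
    field_simp
  linarith

theorem cvx_lim {s : Set ℝ} (hs : Convex ℝ s) {F : ℝ → ℝ → ℝ} {g : ℝ → ℝ}
    (hF : ∀ᶠ ε in 𝓝[>] (0 : ℝ), ConvexOn ℝ s (F ε))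
    (hl : ∀ x ∈ s, Tendsto (fun ε => F ε x) (𝓝[>] 0) (𝓝 (g x))) : ConvexOn ℝ s g := by
  refine ⟨hs, fun x hx y hy a b ha hb hab => ?_⟩
  refine le_of_tendsto_of_tendsto (hl _ (hs hx hy ha hb hab))
    (((hl x hx).const_smul a).add ((hl y hy).const_smul b)) ?_
  filter_upwards [hF] with ε hε
  exact hε.2 hx hy ha hb hab

theorem right_half {u f : ℝ → ℝ}
    (hc : ∀ ε : ℝ, 0 < ε → ConvexOn ℝ univ (fun x => u (ε * x) / ε + f x))
    {C : ℝ} (hb : ∀ᶠ x in 𝓝[>] (0 : ℝ), |f x - f 0| ≤ C * |x|) :
    ∃ k l : ℝ, Tendsto (fun x => (f x - f 0) / x) (𝓝[>] 0) (𝓝 k) ∧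
      Tendsto (fun x => (u x - u 0) / x) (𝓝[>] 0) (𝓝 l) ∧
      (∀ x, 0 ≤ x → f 0 + k * x ≤ f x) ∧ ConvexOn ℝ (Ici 0) f := by
  set b : ℝ → ℝ := fun x => (f x - f 0) / x with hbd
  set A : ℝ → ℝ := fun x => (u x - u 0) / x with hA
  have hmono : ∀ ε : ℝ, 0 < ε → ∀ x y, 0 < x → x ≤ y → A (ε * x) + b x ≤ A (ε * y) + b y := by
    intro ε hε x y hx hxy
    have h1 := mono_slope (hc ε hε) hx hxy
    have hy : 0 < y := hx.trans_le hxy
    have e : ∀ z : ℝ, 0 < z → (u (ε * z) / ε + f z - (u (ε * 0) / ε + f 0)) / z =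
        A (ε * z) + b z := by
      intro z hz
      rw [mul_zero, hA, hbd]
      field_simp
      ring
    rw [e x hx, e y hy] at h1
    exact h1
  set L : ℝ := (u (1 * 0) / 1 + f 0) - (u (1 * (-1)) / 1 + f (-1)) with hL
  have hlb : ∀ x, 0 < x → L ≤ A x + b x := by
    intro x hx
    have h1 := slope_lb (hc 1 one_pos) hx
    have e : (u (1 * x) / 1 + f x - (u (1 * 0) / 1 + f 0)) / x = A x + b x := by
      rw [mul_zero, one_mul, hA, hbd]
      field_simp
      ring
    rw [e] at h1
    exact h1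
  have hbC : ∀ᶠ x in 𝓝[>] (0 : ℝ), |b x| ≤ C := by
    filter_upwards [hb, self_mem_nhdsWithin] with x hx hx0
    have hx0' : (0 : ℝ) < x := hx0
    rw [hbd, abs_div, div_le_iff₀ (abs_pos.2 hx0'.ne')]
    exact hx
  have hbm : ∀ x y, 0 < x → x ≤ y → b x ≤ b y := by
    intro s s' hs hss
    by_contra hlt
    push Not at hlt
    have hs' : 0 < s' := hs.trans_le hss
    have hne : s < s' := by
      rcases hss.lt_or_eq with h | h
      · exact h
      · rw [h] at hlt
        exact absurd hlt (lt_irrefl _)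
    set η := b s - b s' with hη
    have hη0 : 0 < η := by linarith
    set ρ := s / s' with hρ
    have hρ0 : 0 < ρ := by positivity
    have hρ1 : ρ < 1 := (div_lt_one hs').2 hne
    have hstep : ∀ y, 0 < y → A (ρ * y) + η ≤ A y := by
      intro y hy
      have h1 := hmono (y / s') (by positivity) s s' hs hss
      have e1 : y / s' * s = ρ * y := by rw [hρ]; ring
      have e2 : y / s' * s' = y := by field_simp
      rw [e1, e2] at h1
      linarith
    have hit : ∀ n : ℕ, A (ρ ^ n) ≤ A 1 - n * η := by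
      intro n
      induction n with
      | zero => simp
      | succ n ih =>
        have h1 := hstep (ρ ^ n) (by positivity)
        have e1 : ρ * ρ ^ n = ρ ^ (n + 1) := by ring
        rw [e1] at h1
        push_cast
        linarith
    have hpow : Tendsto (fun n : ℕ => ρ ^ n) atTop (𝓝[>] 0) := by
      refine tendsto_nhdsWithin_iff.2 ⟨tendsto_pow_atTop_nhds_zero_of_lt_one hρ0.le hρ1, ?_⟩
      exact Eventually.of_forall fun n => pow_pos hρ0 n
    have h1 := hpow.eventually hbC
    obtain ⟨N, hN⟩ := exists_nat_gt ((A 1 - (L - C)) / η)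
    obtain ⟨n, hn1, hn2⟩ := (h1.and (eventually_ge_atTop N)).exists
    have h2 := hlb (ρ ^ n) (pow_pos hρ0 n)
    have h3 := (abs_le.1 hn1).2
    have h4 := hit n
    have h5 : (A 1 - (L - C)) < N * η := by rwa [div_lt_iff₀ hη0] at hN
    have h6 : (N : ℝ) * η ≤ n * η := by
      have : (N : ℝ) ≤ n := by exact_mod_cast hn2
      exact mul_le_mul_of_nonneg_right this hη0.le
    linarith
  have hlbb : ∀ x, 0 < x → -C ≤ b x := by
    intro x hx
    have h1 : ∀ᶠ y in 𝓝[>] (0 : ℝ), y < x :=
      mem_of_superset (Ioo_mem_nhdsGT hx) fun y hy => hy.2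
    obtain ⟨y, ⟨hy1, hy2⟩, hy3⟩ := ((hbC.and h1).and self_mem_nhdsWithin).exists
    exact (abs_le.1 hy1).1.trans (hbm y x hy3 hy2.le)
  have hbM : MonotoneOn b (Ioi 0) := fun x hx y _ hxy => hbm x y hx hxy
  have hbB : BddBelow (b '' Ioi 0) := ⟨-C, by rintro _ ⟨x, hx, rfl⟩; exact hlbb x hx⟩
  have hk := hbM.tendsto_nhdsGT hbB
  set k := sInf (b '' Ioi 0) with hkd
  have hsM : MonotoneOn (fun x => A x + b x) (Ioi 0) := fun x hx y _ hxy => by
    have := hmono 1 one_pos x y hx hxy
    simpa only [one_mul] using this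
  have hsB : BddBelow ((fun x => A x + b x) '' Ioi 0) :=
    ⟨L, by rintro _ ⟨x, hx, rfl⟩; exact hlb x hx⟩
  have hs := hsM.tendsto_nhdsGT hsB
  set m := sInf ((fun x => A x + b x) '' Ioi 0) with hm
  have hAl : Tendsto A (𝓝[>] 0) (𝓝 (m - k)) := by
    have h1 := hs.sub hk
    refine h1.congr fun x => ?_
    ring
  refine ⟨k, m - k, hk, hAl, ?_, ?_⟩
  · intro x hx
    rcases hx.eq_or_lt with h | h
    · rw [← h]; simp
    · have h1 : k ≤ b x := csInf_le hbB ⟨x, h, rfl⟩
      rw [hbd, le_div_iff₀ h] at h1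
      linarith
  · have h1 : ConvexOn ℝ (Ici (0 : ℝ)) (fun x => (m - k) * x + f x) := by
      refine cvx_lim (convex_Ici 0) (F := fun ε x => (u (ε * x) / ε + f x) + (-(u 0 / ε))) ?_ ?_
      · filter_upwards [self_mem_nhdsWithin] with ε hε
        exact ((hc ε hε).add (convexOn_const _ convex_univ)).subset (subset_univ _) (convex_Ici 0)
      · intro x hx
        have hx' : (0 : ℝ) ≤ x := hx
        have h2 : Tendsto (fun ε => A (ε * x) * x) (𝓝[>] 0) (𝓝 ((m - k) * x)) := by
          rcases hx'.eq_or_lt with h | h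
          · rw [← h]
            simp
          · refine Tendsto.mul_const x (hAl.comp ?_)
            refine tendsto_nhdsWithin_iff.2 ⟨?_, ?_⟩
            · have : Continuous (fun ε : ℝ => ε * x) := by fun_prop
              have h3 := this.tendsto 0
              rw [zero_mul] at h3
              exact h3.mono_left nhdsWithin_le_nhds
            · filter_upwards [self_mem_nhdsWithin] with ε hε
              exact mul_pos hε h
        refine (h2.add_const (f x)).congr' ?_
        filter_upwards [self_mem_nhdsWithin] with ε hε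
        have hε' : (0 : ℝ) < ε := hε
        rcases hx'.eq_or_lt with h | h
        · rw [← h]
          simp
        · rw [hA]
          field_simp
          ring
    refine ⟨convex_Ici 0, fun x hx y hy a c ha hc' hac => ?_⟩
    have h2 := h1.2 hx hy ha hc' hac
    simp only [smul_eq_mul] at h2 ⊢
    nlinarith

/-- gluing at a minimum -/
theorem glue {g : ℝ → ℝ} (h1 : ConvexOn ℝ (Ici 0) g) (h2 : ConvexOn ℝ (Iic 0) g)
    (h0 : ∀ x, g 0 ≤ g x) : ConvexOn ℝ univ g := by
  -- the case of a point in the nonnegative part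
  have key : ∀ {g : ℝ → ℝ}, ConvexOn ℝ (Ici 0) g → (∀ x, g 0 ≤ g x) → ∀ x y a b : ℝ, x ≤ 0 →
      0 ≤ y → 0 ≤ a → 0 ≤ b → a + b = 1 → 0 ≤ a * x + b * y →
      g (a * x + b * y) ≤ a * g x + b * g y := by
    intro g hg hg0 x y a b hx hy ha hb hab hz
    rcases hy.eq_or_lt with h | h
    · rw [← h] at hz ⊢
      have e : a * x + b * 0 = 0 := by
        have : a * x ≤ 0 := mul_nonpos_of_nonneg_of_nonpos ha hx
        linarith
      rw [e]
      have h3 := mul_le_mul_of_nonneg_left (hg0 x) ha
      have : a = 1 - b := by linarith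
      subst this
      linarith
    · set t := (a * x + b * y) / y with ht
      have ht0 : 0 ≤ t := by positivity
      have htb : t ≤ b := by
        rw [ht, div_le_iff₀ h]
        have : a * x ≤ 0 := mul_nonpos_of_nonneg_of_nonpos ha hx
        linarith
      have hb1 : b ≤ 1 := by linarith
      have h3 := hg.2 (show (0 : ℝ) ∈ Ici 0 by simp) (show y ∈ Ici (0 : ℝ) from h.le)
        (show 0 ≤ 1 - t by linarith) ht0 (by ring)
      simp only [smul_eq_mul, mul_zero, zero_add] at h3
      have e : t * y = a * x + b * y := by rw [ht]; field_simp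
      rw [e] at h3
      have h4 := mul_le_mul_of_nonneg_left (hg0 x) ha
      have h5 := mul_le_mul_of_nonneg_left (hg0 y) (show 0 ≤ b - t by linarith)
      have : a = 1 - b := by linarith
      subst this
      linarith
  have hneg : ConvexOn ℝ (Ici 0) (fun x => g (-x)) := by
    refine ⟨convex_Ici 0, fun x hx y hy a b ha hb hab => ?_⟩
    have h3 := h2.2 (show -x ∈ Iic (0 : ℝ) by simpa using hx)
      (show -y ∈ Iic (0 : ℝ) by simpa using hy) ha hb hab
    have e : -(a • x + b • y) = a • (-x) + b • (-y) := by simp; ring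
    beta_reduce
    rw [e]
    exact h3
  have hmix : ∀ x y a b : ℝ, x ≤ 0 → 0 ≤ y → 0 ≤ a → 0 ≤ b → a + b = 1 →
      g (a * x + b * y) ≤ a * g x + b * g y := by
    intro x y a b hx hy ha hb hab
    rcases le_total 0 (a * x + b * y) with hz | hz
    · exact key h1 h0 x y a b hx hy ha hb hab hz
    · have h3 := key hneg (fun x => by simpa using h0 (-x)) (-y) (-x) b a (by linarith)
        (by linarith) hb ha (by linarith) (by linarith)
      have e : -(b * -y + a * -x) = a * x + b * y := by ring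
      simp only [neg_neg, e] at h3
      linarith
  refine ⟨convex_univ, fun x _ y _ a b ha hb hab => ?_⟩
  simp only [smul_eq_mul]
  rcases le_total 0 x with hx | hx <;> rcases le_total 0 y with hy | hy
  · exact h1.2 hx hy ha hb hab
  · have := hmix y x b a hy hx hb ha (by linarith)
    have e : b * y + a * x = a * x + b * y := by ring
    rw [e] at this
    linarith
  · exact hmix x y a b hx hy ha hb hab
  · exact h2.2 hx hy ha hb hab

end Pool.Agent.N797.MR
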