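import Pool.Agent.N797.MR.Quas

/-! # Frame-indifferent functions of degree two: polyconvexity -/

set_option autoImplicit false

namespace Pool.Agent.N797.MR

open Set Filter Topology
open scoped ComplexConjugate

/-- the data of a support -/
def Sp (w : ℂ × ℂ → ℝ) : Type :=
  {s : (ℝ × ℝ) × (ℂ × ℂ) // 0 ≤ s.1.2 ∧ ∀ F : ℂ × ℂ,
    s.1.1 * (‖F.1‖ ^ 2 - ‖F.2‖ ^ 2) + s.1.2 * ‖s.2.1 * F.1 + s.2.2 * F.2‖ ^ 2 ≤ w F}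

/-- the value of a support, as a function of the matrix and the determinant -/
noncomputable def sv {w : ℂ × ℂ → ℝ} (s : Sp w) (X : (ℂ × ℂ) × ℝ) : ℝ :=
  s.1.1.1 * X.2 + s.1.1.2 * ‖s.1.2.1 * X.1.1 + s.1.2.2 * X.1.2‖ ^ 2

theorem sv_cvx {w : ℂ × ℂ → ℝ} (s : Sp w) : ConvexOn ℝ univ (sv s) := by
  have h1 := (cvx_part s.1.1.2 s.2.1 s.1.2.1 s.1.2.2).comp_linearMap
    (LinearMap.fst ℝ (ℂ × ℂ) ℝ)
  have h2 : ConvexOn ℝ univ (fun X : (ℂ × ℂ) × ℝ => s.1.1.1 * X.2) := by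
    have := (s.1.1.1 • LinearMap.snd ℝ (ℂ × ℂ) ℝ).convexOn convex_univ
    exact this
  exact h2.add h1

theorem sv_le {w : ℂ × ℂ → ℝ} (s : Sp w) (F : ℂ × ℂ) :
    sv s (F, ‖F.1‖ ^ 2 - ‖F.2‖ ^ 2) ≤ w F := s.2.2 F

theorem sv_bdd {w : ℂ × ℂ → ℝ} (X : (ℂ × ℂ) × ℝ) :
    BddAbove (range fun s : Sp w => sv s X) := by
  obtain ⟨Y, hY⟩ : ∃ Y : ℂ × ℂ, ‖Y.1‖ ^ 2 - ‖Y.2‖ ^ 2 = X.2 - (‖X.1.1‖ ^ 2 - ‖X.1.2‖ ^ 2) := by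
    set d := X.2 - (‖X.1.1‖ ^ 2 - ‖X.1.2‖ ^ 2) with hd
    rcases le_total 0 d with h | h
    · refine ⟨(((√d : ℝ) : ℂ), 0), ?_⟩
      simp only [Complex.norm_real, norm_zero]
      rw [Real.norm_of_nonneg (Real.sqrt_nonneg _), Real.sq_sqrt h]
      ring
    · refine ⟨(0, ((√(-d) : ℝ) : ℂ)), ?_⟩
      simp only [Complex.norm_real, norm_zero]
      rw [Real.norm_of_nonneg (Real.sqrt_nonneg _), Real.sq_sqrt (by linarith)]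
      ring
  have nsq : ∀ z : ℂ, ‖z‖ ^ 2 = z.re * z.re + z.im * z.im := fun z => by
    rw [← Complex.normSq_eq_norm_sq, Complex.normSq_apply]
  have hd2 : X.2 = 1 / 2 * (‖(X.1 + Y).1‖ ^ 2 - ‖(X.1 + Y).2‖ ^ 2)
      + 1 / 2 * (‖(X.1 - Y).1‖ ^ 2 - ‖(X.1 - Y).2‖ ^ 2) := by
    simp only [nsq, Prod.fst_add, Prod.snd_add, Prod.fst_sub, Prod.snd_sub, Complex.add_re,
      Complex.add_im, Complex.sub_re, Complex.sub_im] at hY ⊢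
    linarith
  have hX : X = (1 / 2 : ℝ) • (X.1 + Y, ‖(X.1 + Y).1‖ ^ 2 - ‖(X.1 + Y).2‖ ^ 2)
      + (1 / 2 : ℝ) • (X.1 - Y, ‖(X.1 - Y).1‖ ^ 2 - ‖(X.1 - Y).2‖ ^ 2) := by
    ext1
    · show X.1 = (1 / 2 : ℝ) • (X.1 + Y) + (1 / 2 : ℝ) • (X.1 - Y)
      module
    · exact hd2
  refine ⟨1 / 2 * w (X.1 + Y) + 1 / 2 * w (X.1 - Y), ?_⟩
  rintro _ ⟨s, rfl⟩
  have h1 := (sv_cvx s).2 (mem_univ (X.1 + Y, ‖(X.1 + Y).1‖ ^ 2 - ‖(X.1 + Y).2‖ ^ 2))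
    (mem_univ (X.1 - Y, ‖(X.1 - Y).1‖ ^ 2 - ‖(X.1 - Y).2‖ ^ 2))
    (show (0 : ℝ) ≤ 1 / 2 by norm_num) (show (0 : ℝ) ≤ 1 / 2 by norm_num) (by norm_num)
  rw [← hX] at h1
  simp only [smul_eq_mul] at h1
  have h2 := sv_le s (X.1 + Y)
  have h3 := sv_le s (X.1 - Y)
  simp only
  linarith

/-- **polyconvexity** -/
theorem Cl.poly {w : ℂ × ℂ → ℝ} (hw : Cl w) :
    ∃ P : (ℂ × ℂ) × ℝ → ℝ, ConvexOn ℝ univ P ∧ ∀ F, w F = P (F, ‖F.1‖ ^ 2 - ‖F.2‖ ^ 2) := by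
  have hne : Nonempty (Sp w) := by
    obtain ⟨c, m, p, q, hm, h1, -⟩ := hw.supp (1, 0) (by simp)
    exact ⟨⟨((c, m), (p, q)), hm, h1⟩⟩
  set P : (ℂ × ℂ) × ℝ → ℝ := fun X => ⨆ s : Sp w, sv s X with hP
  have hPc : ConvexOn ℝ univ P := by
    refine ⟨convex_univ, fun X _ Y _ a b ha hb hab => ?_⟩
    refine ciSup_le fun s => ?_
    refine ((sv_cvx s).2 (mem_univ X) (mem_univ Y) ha hb hab).trans ?_
    refine add_le_add ?_ ?_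
    · exact mul_le_mul_of_nonneg_left (le_ciSup (sv_bdd X) s) ha
    · exact mul_le_mul_of_nonneg_left (le_ciSup (sv_bdd Y) s) hb
  refine ⟨P, hPc, ?_⟩
  have hcont : Continuous P := continuousOn_univ.1 (hPc.continuousOn isOpen_univ)
  have hgr : Continuous (fun F : ℂ × ℂ => P (F, ‖F.1‖ ^ 2 - ‖F.2‖ ^ 2)) :=
    hcont.comp (by fun_prop)
  have heq : Set.EqOn w (fun F : ℂ × ℂ => P (F, ‖F.1‖ ^ 2 - ‖F.2‖ ^ 2))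
      {F : ℂ × ℂ | ‖F.1‖ ≠ ‖F.2‖} := by
    intro A hA
    refine le_antisymm ?_ (ciSup_le fun s => sv_le s A)
    obtain ⟨c, m, p, q, hm, h1, h2⟩ := hw.supp A hA
    rw [← h2]
    exact le_ciSup (sv_bdd (A, ‖A.1‖ ^ 2 - ‖A.2‖ ^ 2)) (⟨((c, m), (p, q)), hm, h1⟩ : Sp w)
  intro F
  have := Continuous.ext_on dense_ne hw.cont hgr heq
  exact congrFun this F

end Pool.Agent.N797.MR
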