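import Pool.Agent.N797.MR.Core

/-! # Frame-indifferent functions of degree two: quadratic polyconvex supports -/

set_option autoImplicit false

namespace Pool.Agent.N797.MR

open Set Filter Topology
open scoped ComplexConjugate

theorem Cl.zero {w : ℂ × ℂ → ℝ} (hw : Cl w) : w (0, 0) = 0 := by
  have h := hw.inv 2 0 0 two_ne_zero
  simp only [mul_zero] at h
  norm_num at h
  linarith

/-- the support inequality, scaled -/
theorem Cl.starb {w : ℂ × ℂ → ℝ} (hw : Cl w) {c0 : ℂ}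
    (hc : ∀ H1 H2 : ℂ, ‖H1‖ = ‖H2‖ →
      w (1, 0) + 2 * w (1, 0) * H1.re + (c0 * H2).re ≤ w (1 + H1, H2))
    (b X Y : ℂ) (hb : b ≠ 0) (hXY : ‖X‖ = ‖Y‖) :
    ‖b‖ ^ 2 * w (1, 0) + 2 * w (1, 0) * (X * conj b).re + (c0 * Y * conj b).re
      ≤ w (b + X, Y) := by
  have h1 := hc (X / b) (Y / b) (by rw [norm_div, norm_div, hXY])
  have h2 := hw.inv b (1 + X / b) (Y / b) hb
  have e1 : b * (1 + X / b) = b + X := by field_simp
  have e2 : b * (Y / b) = Y := by field_simp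
  rw [e1, e2] at h2
  rw [h2]
  have h3 := mul_le_mul_of_nonneg_left h1 (by positivity : 0 ≤ ‖b‖ ^ 2)
  have h4 := sq_mul_div b X hb
  have h5 := sq_mul_div b (c0 * Y) hb
  have e3 : c0 * (Y / b) = c0 * Y / b := by ring
  rw [e3] at h3
  calc _ = ‖b‖ ^ 2 * (w (1, 0) + 2 * w (1, 0) * (X / b).re + (c0 * Y / b).re) := by
        rw [← h4, ← h5]; ring
    _ ≤ _ := h3

/-- the bound from the direction `e` -/
theorem Cl.bth {w : ℂ × ℂ → ℝ} (hw : Cl w) {c0 : ℂ}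
    (hc : ∀ H1 H2 : ℂ, ‖H1‖ = ‖H2‖ →
      w (1, 0) + 2 * w (1, 0) * H1.re + (c0 * H2).re ≤ w (1 + H1, H2))
    (α β e : ℂ) (he : ‖e‖ = 1) (hb : α * e + β * conj e ≠ 0) :
    w (1, 0) * (‖α‖ ^ 2 - ‖β‖ ^ 2) + (c0 * (conj α * β)).re + (c0 * e ^ 2).re * ‖β‖ ^ 2
      ≤ w (α, β) := by
  have hen : e ≠ 0 := by
    intro h
    rw [h] at he
    simp at he
  have h1 := hw.inv e α β hen
  rw [he, one_pow, one_mul] at h1
  rw [← h1]
  have h2 := hw.starb hc (α * e + β * conj e) (-(β * conj e)) (e * β) hb (by simp [he])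
  have e1 : α * e + β * conj e + -(β * conj e) = e * α := by ring
  rw [e1] at h2
  refine le_trans (le_of_eq ?_) h2
  have hee : e.re * e.re + e.im * e.im = 1 := by
    have h3 : ‖e‖ ^ 2 = 1 := by rw [he, one_pow]
    rw [← Complex.normSq_eq_norm_sq, Complex.normSq_apply] at h3
    exact h3
  have nsq : ∀ z : ℂ, ‖z‖ ^ 2 = z.re * z.re + z.im * z.im := fun z => by
    rw [← Complex.normSq_eq_norm_sq, Complex.normSq_apply]
  simp only [nsq, sq e, Complex.mul_re, Complex.mul_im,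
    Complex.add_re, Complex.add_im, Complex.conj_re, Complex.conj_im, Complex.neg_re,
    Complex.neg_im, map_add, map_mul, Complex.conj_conj]
  linear_combination (-(w (1, 0) * (α.re * α.re + α.im * α.im - (β.re * β.re + β.im * β.im))
    + (c0.re * (α.re * β.re + α.im * β.im) - c0.im * (α.re * β.im - α.im * β.re)))) * hee

/-- the points with nonzero determinant are dense -/
theorem dense_ne : Dense {F : ℂ × ℂ | ‖F.1‖ ≠ ‖F.2‖} := by
  intro F
  by_cases hF : ‖F.1‖ ≠ ‖F.2‖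
  · exact subset_closure hF
  push Not at hF
  by_cases h0 : F.1 = 0
  · have h1 : F.2 = 0 := by rw [h0, norm_zero] at hF; exact norm_eq_zero.1 hF.symm
    have hlim : Tendsto (fun t : ℝ => ((t : ℂ), F.2)) (𝓝[>] 0) (𝓝 F) := by
      have hc : Continuous (fun t : ℝ => ((t : ℂ), F.2)) := by fun_prop
      have h2 := (hc.tendsto 0).mono_left (nhdsWithin_le_nhds (s := Ioi 0))
      have h3 : (((0 : ℝ) : ℂ), F.2) = F := by ext1 <;> simp [h0]
      rwa [h3] at h2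
    refine mem_closure_of_tendsto hlim ?_
    filter_upwards [self_mem_nhdsWithin] with t ht
    have ht' : (0 : ℝ) < t := ht
    simp only [h1, norm_zero, Complex.norm_real]
    exact (norm_pos_iff.2 ht'.ne').ne'
  · have hlim : Tendsto (fun t : ℝ => (((1 + t : ℝ) : ℂ) * F.1, F.2)) (𝓝[>] 0) (𝓝 F) := by
      have hc : Continuous (fun t : ℝ => (((1 + t : ℝ) : ℂ) * F.1, F.2)) := by fun_prop
      have h2 := (hc.tendsto 0).mono_left (nhdsWithin_le_nhds (s := Ioi 0))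
      have h3 : (((1 + 0 : ℝ) : ℂ) * F.1, F.2) = F := by ext1 <;> simp
      rwa [h3] at h2
    refine mem_closure_of_tendsto hlim ?_
    filter_upwards [self_mem_nhdsWithin] with t ht
    have ht' : (0 : ℝ) < t := ht
    simp only [norm_mul, Complex.norm_real, ← hF]
    have h1 : 0 < ‖F.1‖ := norm_pos_iff.2 h0
    have h2 : ‖(1 + t : ℝ)‖ = 1 + t := by rw [Real.norm_of_nonneg]; linarith
    rw [h2]
    nlinarith

/-- the support inequality at the identity -/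
theorem Cl.bmax {w : ℂ × ℂ → ℝ} (hw : Cl w) : ∃ c0 : ℂ, ∀ F : ℂ × ℂ,
    w (1, 0) * (‖F.1‖ ^ 2 - ‖F.2‖ ^ 2) + (c0 * (conj F.1 * F.2)).re + ‖c0‖ * ‖F.2‖ ^ 2 ≤ w F := by
  obtain ⟨c0, hc⟩ := hw.star
  refine ⟨c0, ?_⟩
  obtain ⟨e, he, hce⟩ : ∃ e : ℂ, ‖e‖ = 1 ∧ c0 * e ^ 2 = ‖c0‖ := by
    refine ⟨Complex.exp ((-(c0.arg / 2) : ℝ) * Complex.I), Complex.norm_exp_ofReal_mul_I _, ?_⟩
    rw [← Complex.exp_nat_mul]
    have h0 := Complex.norm_mul_exp_arg_mul_I c0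
    have : (c0.arg : ℂ) * Complex.I + ((2 : ℕ) : ℂ) * (((-(c0.arg / 2) : ℝ) : ℂ) * Complex.I) = 0 := by
      push_cast
      ring
    calc c0 * Complex.exp (((2 : ℕ) : ℂ) * (((-(c0.arg / 2) : ℝ) : ℂ) * Complex.I))
        = (‖c0‖ * Complex.exp ((c0.arg : ℂ) * Complex.I))
          * Complex.exp (((2 : ℕ) : ℂ) * (((-(c0.arg / 2) : ℝ) : ℂ) * Complex.I)) := by rw [h0]
      _ = ‖c0‖ := by rw [mul_assoc, ← Complex.exp_add, this, Complex.exp_zero, mul_one]
  have hcl : IsClosed {F : ℂ × ℂ | w (1, 0) * (‖F.1‖ ^ 2 - ‖F.2‖ ^ 2)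
      + (c0 * (conj F.1 * F.2)).re + ‖c0‖ * ‖F.2‖ ^ 2 ≤ w F} := by
    refine isClosed_le ?_ hw.cont
    fun_prop
  have hsub : {F : ℂ × ℂ | ‖F.1‖ ≠ ‖F.2‖} ⊆ {F : ℂ × ℂ | w (1, 0) * (‖F.1‖ ^ 2 - ‖F.2‖ ^ 2)
      + (c0 * (conj F.1 * F.2)).re + ‖c0‖ * ‖F.2‖ ^ 2 ≤ w F} := by
    intro F hF
    have hb : F.1 * e + F.2 * conj e ≠ 0 := by
      intro h
      apply hF
      have h1 : F.1 * e = -(F.2 * conj e) := eq_neg_of_add_eq_zero_left h
      have h2 := congrArg norm h1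
      simpa [he] using h2
    have h1 := hw.bth hc F.1 F.2 e he hb
    rw [hce, Complex.ofReal_re] at h1
    exact h1
  intro F
  have := (closure_minimal hsub hcl) (dense_ne F)
  exact this

/-- composition of real-linear maps of the plane -/
noncomputable def cmp (F A : ℂ × ℂ) : ℂ × ℂ :=
  (F.1 * A.1 + F.2 * conj A.2, F.1 * A.2 + F.2 * conj A.1)

theorem Cl.comp {w : ℂ × ℂ → ℝ} (hw : Cl w) (A : ℂ × ℂ) : Cl (fun F => w (cmp F A)) where
  inv := by
    intro l a b hl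
    have h := hw.inv l (a * A.1 + b * conj A.2) (a * A.2 + b * conj A.1) hl
    simp only [cmp]
    rw [← h]
    congr 2 <;> ring
  roc := by
    intro F H hH t h0 h1
    have e1 : cmp (F + t • H) A = cmp F A + t • cmp H A := by
      unfold cmp
      ext1
      · simp; ring
      · simp; ring
    have e2 : cmp (F + H) A = cmp F A + cmp H A := by
      unfold cmp
      ext1
      · simp; ring
      · simp; ring
    simp only [e1, e2]
    refine hw.roc _ _ ?_ t h0 h1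
    have nsq : ∀ z : ℂ, ‖z‖ ^ 2 = z.re * z.re + z.im * z.im := fun z => by
      rw [← Complex.normSq_eq_norm_sq, Complex.normSq_apply]
    have h2 : ‖H.1‖ ^ 2 = ‖H.2‖ ^ 2 := by rw [hH]
    have h3 : ‖(cmp H A).1‖ ^ 2 = ‖(cmp H A).2‖ ^ 2 := by
      rw [nsq, nsq] at h2
      simp only [cmp, nsq, Complex.mul_re, Complex.mul_im, Complex.add_re, Complex.add_im,
        Complex.conj_re, Complex.conj_im]
      linear_combination (A.1.re * A.1.re + A.1.im * A.1.im - A.2.re * A.2.re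
        - A.2.im * A.2.im) * h2
    exact (sq_eq_sq₀ (norm_nonneg _) (norm_nonneg _)).1 h3

/-- **quadratic polyconvex supports** -/
theorem Cl.supp {w : ℂ × ℂ → ℝ} (hw : Cl w) (A : ℂ × ℂ) (hA : ‖A.1‖ ≠ ‖A.2‖) :
    ∃ (c m : ℝ) (p q : ℂ), 0 ≤ m ∧
      (∀ F : ℂ × ℂ, c * (‖F.1‖ ^ 2 - ‖F.2‖ ^ 2) + m * ‖p * F.1 + q * F.2‖ ^ 2 ≤ w F) ∧
      c * (‖A.1‖ ^ 2 - ‖A.2‖ ^ 2) + m * ‖p * A.1 + q * A.2‖ ^ 2 = w A := by
  obtain ⟨c0, hc0⟩ := (hw.comp A).bmax
  have hwA : w (cmp (1, 0) A) = w A := by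
    congr 1
    unfold cmp
    ext1 <;> simp
  simp only [hwA] at hc0
  set D : ℝ := ‖A.1‖ ^ 2 - ‖A.2‖ ^ 2 with hD
  have hD0 : D ≠ 0 := by
    intro h
    apply hA
    have : ‖A.1‖ ^ 2 = ‖A.2‖ ^ 2 := by rw [hD] at h; linarith
    exact (sq_eq_sq₀ (norm_nonneg _) (norm_nonneg _)).1 this
  have hDc : (D : ℂ) ≠ 0 := by exact_mod_cast hD0
  have hDe : (D : ℂ) = A.1 * conj A.1 - A.2 * conj A.2 := by
    rw [Complex.mul_conj, Complex.mul_conj, hD, Complex.normSq_eq_norm_sq,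
      Complex.normSq_eq_norm_sq]
    push_cast
    ring
  obtain ⟨u, hu, hcu⟩ : ∃ u : ℂ, ‖u‖ = 1 ∧ c0 = ‖c0‖ * u := by
    by_cases h : c0 = 0
    · exact ⟨1, by simp, by simp [h]⟩
    · have h' : (‖c0‖ : ℂ) ≠ 0 := by simpa using h
      refine ⟨c0 / ‖c0‖, ?_, by field_simp⟩
      rw [norm_div, Complex.norm_real, norm_norm, div_self]
      simpa using h
  set m : ℝ := ‖c0‖ / 2 with hm
  have hm0 : 0 ≤ m := by positivity
  have nsq : ∀ z : ℂ, ‖z‖ ^ 2 = z.re * z.re + z.im * z.im := fun z => by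
    rw [← Complex.normSq_eq_norm_sq, Complex.normSq_apply]
  -- the inverse map
  set al : ℂ × ℂ → ℂ := fun F => (F.1 * conj A.1 - F.2 * conj A.2) / D with hal
  set be : ℂ × ℂ → ℂ := fun F => (F.2 * A.1 - F.1 * A.2) / D with hbe
  have hcmp : ∀ F, cmp (al F, be F) A = F := by
    intro F
    simp only [cmp, hal, hbe]
    ext1
    · simp only
      field_simp
      rw [hDe]
      ring
    · simp only
      field_simp
      rw [hDe]
      ring
  have hdet : ∀ F, ‖al F‖ ^ 2 - ‖be F‖ ^ 2 = (‖F.1‖ ^ 2 - ‖F.2‖ ^ 2) / D := by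
    intro F
    have h1 : ∀ X : ℂ × ℂ, ‖(cmp X A).1‖ ^ 2 - ‖(cmp X A).2‖ ^ 2 = (‖X.1‖ ^ 2 - ‖X.2‖ ^ 2) * D := by
      intro X
      simp only [cmp, hD, nsq, Complex.mul_re, Complex.mul_im, Complex.add_re, Complex.add_im,
        Complex.conj_re, Complex.conj_im]
      ring
    have h2 := h1 (al F, be F)
    rw [hcmp] at h2
    rw [h2]
    field_simp
  have hkey : ∀ a b : ℂ, (c0 * (conj a * b)).re + ‖c0‖ * ‖b‖ ^ 2
      = m * ‖a + u * b‖ ^ 2 - m * (‖a‖ ^ 2 - ‖b‖ ^ 2) := by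
    intro a b
    have hu2 : u.re * u.re + u.im * u.im = 1 := by rw [← nsq, hu, one_pow]
    have h1 : (c0 * (conj a * b)).re = ‖c0‖ * (u * (conj a * b)).re := by
      conv_lhs => rw [hcu]
      rw [mul_assoc, Complex.re_ofReal_mul]
    rw [h1, hm]
    simp only [nsq a, nsq b, nsq (a + u * b), Complex.mul_re, Complex.mul_im, Complex.add_re,
      Complex.add_im, Complex.conj_re, Complex.conj_im]
    linear_combination (-(‖c0‖ / 2) * (b.re * b.re + b.im * b.im)) * hu2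
  have hlin : ∀ F : ℂ × ℂ, al F + u * be F
      = ((conj A.1 - u * A.2) / D) * F.1 + ((u * A.1 - conj A.2) / D) * F.2 := by
    intro F
    simp only [hal, hbe]
    field_simp
    ring
  have hval : ∀ F : ℂ × ℂ, (w A - m) / D * (‖F.1‖ ^ 2 - ‖F.2‖ ^ 2)
      + m * ‖((conj A.1 - u * A.2) / D) * F.1 + ((u * A.1 - conj A.2) / D) * F.2‖ ^ 2
      = w A * (‖al F‖ ^ 2 - ‖be F‖ ^ 2) + (c0 * (conj (al F) * be F)).re
        + ‖c0‖ * ‖be F‖ ^ 2 := by
    intro F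
    rw [← hlin, add_assoc, hkey, hdet]
    ring
  refine ⟨(w A - m) / D, m, (conj A.1 - u * A.2) / D, (u * A.1 - conj A.2) / D, hm0,
    fun F => ?_, ?_⟩
  · rw [hval]
    have h1 := hc0 (al F, be F)
    rw [hcmp] at h1
    exact h1
  · rw [hval]
    have h1 : al A = 1 := by
      simp only [hal]
      rw [hDe, div_self]
      rw [← hDe]
      exact hDc
    have h2 : be A = 0 := by
      simp only [hbe]
      rw [mul_comm, sub_self, zero_div]
    rw [h1, h2]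
    simp

end Pool.Agent.N797.MR
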