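import Pool.Agent.N797.MR.Sub
import Pool.Agent.N797.MR.Supp

/-! # Positive determinant: the support inequality -/

set_option autoImplicit false

namespace Pool.Agent.N797.MR

open Set Filter Topology
open scoped ComplexConjugate

theorem nsq (z : ℂ) : ‖z‖ ^ 2 = z.re * z.re + z.im * z.im := by
  rw [← Complex.normSq_eq_norm_sq, Complex.normSq_apply]

/-- the class of functions on the maps with positive determinant -/
structure Cp (p : ℕ) (w : ℂ × ℂ → ℝ) : Prop where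
  inv : ∀ (l a b : ℂ), l ≠ 0 → ‖b‖ < ‖a‖ → w (l * a, l * b) = ‖l‖ ^ p * w (a, b)
  roc : ∀ F H : ℂ × ℂ, ‖H.1‖ = ‖H.2‖ → ‖F.2‖ < ‖F.1‖ → ‖(F + H).2‖ < ‖(F + H).1‖ →
    ∀ t : ℝ, 0 ≤ t → t ≤ 1 → w (F + t • H) ≤ (1 - t) * w F + t * w (F + H)

/-- the half plane of the chart -/
theorem half_iff (x : ℂ) : ‖x‖ < ‖1 - x‖ ↔ x.re < 1 / 2 := by
  rw [← sq_lt_sq₀ (norm_nonneg _) (norm_nonneg _), nsq, nsq]
  simp only [Complex.sub_re, Complex.sub_im, Complex.one_re, Complex.one_im]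
  constructor <;> intro h <;> nlinarith

/-- the subgradient in one chart -/
theorem Cp.sub0 {p : ℕ} {w : ℂ × ℂ → ℝ} (hw : Cp p w) :
    ∃ g : ℂ, ∀ x : ℂ, ‖x‖ < ‖1 - x‖ → w (1, 0) + (g * x).re ≤ w (1 - x, x) := by
  set U : Set ℂ := {x | ‖x‖ < ‖1 - x‖} with hU
  have hUo : IsOpen U := isOpen_lt (by fun_prop) (by fun_prop)
  have hUc : Convex ℝ U := by
    intro x hx y hy a b ha hb hab
    have hx' := (half_iff x).1 hx
    have hy' := (half_iff y).1 hy
    refine (half_iff _).2 ?_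
    simp only [Complex.add_re, Complex.smul_re, smul_eq_mul]
    rcases ha.eq_or_lt with h | h
    · rw [← h] at hab ⊢
      have : b = 1 := by linarith
      rw [this]
      linarith
    · have h1 := mul_lt_mul_of_pos_left hx' h
      have h2 := mul_le_mul_of_nonneg_left hy'.le hb
      have : b = 1 - a := by linarith
      subst this
      linarith
  have hcv : ConvexOn ℝ U (fun x => w (1 - x, x)) := by
    refine ⟨hUc, fun x hx y hy a b ha hb hab => ?_⟩
    have h1 := hw.roc (1 - x, x) (-(y - x), y - x) (by simp only [norm_neg]) hx (by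
      have e : ((1 - x, x) : ℂ × ℂ) + (-(y - x), y - x) = (1 - y, y) := by
        ext1 <;> simp
      rw [e]
      exact hy) b hb (by linarith)
    have e1 : ((1 - x, x) : ℂ × ℂ) + b • (-(y - x), y - x) =
        (1 - (a • x + b • y), a • x + b • y) := by
      have : a = 1 - b := by linarith
      subst this
      ext1
      · simp; ring
      · simp; ring
    have e2 : ((1 - x, x) : ℂ × ℂ) + (-(y - x), y - x) = (1 - y, y) := by
      ext1 <;> simp
    rw [e1, e2] at h1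
    have : 1 - b = a := by linarith
    rw [this] at h1
    exact h1
  have h0 : (0 : ℂ) ∈ U := by simp [hU]
  obtain ⟨l, hl⟩ := subgr hUo hcv h0
  refine ⟨⟨l 1, -l Complex.I⟩, fun x hx => ?_⟩
  have h1 := hl x hx
  simp only [sub_zero] at h1
  have h2 : l x = ((⟨l 1, -l Complex.I⟩ : ℂ) * x).re := by
    have e : x = x.re • (1 : ℂ) + x.im • Complex.I := by
      simp [Complex.re_add_im]
    conv_lhs => rw [e, map_add, map_smul, map_smul]
    rw [Complex.mul_re]
    simp only [smul_eq_mul]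
    ring
  rw [h2] at h1
  exact h1

/-- small multiples -/
theorem small_pos (H1 H2 : ℂ) (hH : ‖H1‖ = ‖H2‖) (h : ‖H2‖ < ‖1 + H1‖) {t : ℝ} (ht0 : 0 ≤ t)
    (ht1 : t < 1) : ‖(t : ℂ) * H2‖ < ‖1 + t * H1‖ := by
  rw [← sq_lt_sq₀ (norm_nonneg _) (norm_nonneg _)] at h ⊢
  have h2 : ‖H1‖ ^ 2 = ‖H2‖ ^ 2 := by rw [hH]
  rw [nsq, nsq] at h h2 ⊢
  simp only [Complex.add_re, Complex.add_im, Complex.one_re, Complex.one_im, Complex.mul_re,
    Complex.mul_im, Complex.ofReal_re, Complex.ofReal_im] at h h2 ⊢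
  have h3 : 0 < 1 + 2 * H1.re := by nlinarith
  have h4 : 0 < (1 - t) + t * (1 + 2 * H1.re) :=
    add_pos_of_pos_of_nonneg (by linarith) (mul_nonneg ht0 h3.le)
  have h5 : t ^ 2 * (H1.re * H1.re + H1.im * H1.im) = t ^ 2 * (H2.re * H2.re + H2.im * H2.im) := by
    rw [h2]
  nlinarith

/-- the support inequality along rank-one directions, degree zero -/
theorem Cp.star0 {w : ℂ × ℂ → ℝ} (hw : Cp 0 w) : ∃ c0 : ℂ, ∀ H1 H2 : ℂ, ‖H1‖ = ‖H2‖ →
    ‖H2‖ < ‖1 + H1‖ → w (1, 0) + (c0 * H2).re ≤ w (1 + H1, H2) := by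
  obtain ⟨g, hg⟩ := hw.sub0
  set w0 := w (1, 0) with hw0
  refine ⟨g, fun H1 H2 hH hpos => ?_⟩
  set S : ℂ := H1 + H2 with hS
  have hlim0 : Tendsto (fun t : ℝ => (1 + t * S : ℂ)) (𝓝[>] 0) (𝓝 (1 + (0 : ℝ) * S)) := by
    have : Continuous (fun t : ℝ => (1 + t * S : ℂ)) := by fun_prop
    exact (this.tendsto 0).mono_left nhdsWithin_le_nhds
  have key : ∀ᶠ t : ℝ in 𝓝[>] 0, (g * H2 / (1 + t * S)).re ≤ w (1 + H1, H2) - w0 := by
    have hne : ∀ᶠ t : ℝ in 𝓝[>] 0, (1 + t * S : ℂ) ≠ 0 := by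
      refine hlim0.eventually_ne ?_
      simp
    have hle1 : ∀ᶠ t : ℝ in 𝓝[>] 0, t < 1 :=
      mem_of_superset (Ioo_mem_nhdsGT one_pos) fun t ht => ht.2
    filter_upwards [hne, hle1, self_mem_nhdsWithin] with t ht ht1 ht0
    have ht0' : (0 : ℝ) < t := ht0
    set s : ℂ := 1 + t * S with hs
    have hsp := small_pos H1 H2 hH hpos ht0'.le ht1
    have f1 : s * (1 - t * H2 / s) = 1 + t * H1 := by
      rw [mul_sub, mul_div_cancel₀ _ ht, hs, hS]
      ring
    have f2 : s * (t * H2 / s) = t * H2 := mul_div_cancel₀ _ ht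
    have hx : ‖t * H2 / s‖ < ‖1 - t * H2 / s‖ := by
      have h1 : ‖s * (t * H2 / s)‖ < ‖s * (1 - t * H2 / s)‖ := by
        rw [f1, f2]
        exact hsp
      rw [norm_mul, norm_mul] at h1
      exact lt_of_mul_lt_mul_left h1 (norm_nonneg _)
    have e1 : w (1 + t * H1, t * H2) = w (1 - t * H2 / s, t * H2 / s) := by
      have h1 := hw.inv s _ _ ht hx
      rw [f1, f2, pow_zero, one_mul] at h1
      exact h1
    have e2 := hg (t * H2 / s) hx
    have e3 := hw.roc (1, 0) (H1, H2) hH (by simp) (by simpa using hpos) t ht0'.le ht1.le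
    have e4 : ((1 : ℂ), (0 : ℂ)) + t • (H1, H2) = (1 + t * H1, t * H2) := by
      ext1 <;> simp
    have e5 : ((1 : ℂ), (0 : ℂ)) + (H1, H2) = (1 + H1, H2) := by
      ext1 <;> simp
    rw [e4, e5, e1] at e3
    have e6 : (g * (t * H2 / s)).re = t * (g * H2 / s).re := by
      have h1 : g * (t * H2 / s) = (t : ℂ) * (g * H2 / s) := by ring
      rw [h1, Complex.re_ofReal_mul]
    rw [e6] at e2
    have e9 : t * (g * H2 / s).re ≤ t * (w (1 + H1, H2) - w0) := by linarith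
    exact le_of_mul_le_mul_left e9 ht0'
  have hlim : Tendsto (fun t : ℝ => (g * H2 / (1 + t * S)).re) (𝓝[>] 0)
      (𝓝 ((g * H2 / (1 + (0 : ℝ) * S)).re)) := by
    refine (Complex.continuous_re.tendsto _).comp ?_
    exact tendsto_const_nhds.div hlim0 (by simp)
  have hfin := le_of_tendsto hlim key
  simp only [Complex.ofReal_zero, zero_mul, add_zero, div_one] at hfin
  linarith

/-- the support inequality along rank-one directions, degree two -/
theorem Cp.star2 {w : ℂ × ℂ → ℝ} (hw : Cp 2 w) : ∃ c0 : ℂ, ∀ H1 H2 : ℂ, ‖H1‖ = ‖H2‖ →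
    ‖H2‖ < ‖1 + H1‖ → w (1, 0) + 2 * w (1, 0) * H1.re + (c0 * H2).re ≤ w (1 + H1, H2) := by
  obtain ⟨g, hg⟩ := hw.sub0
  set w0 := w (1, 0) with hw0
  refine ⟨g + 2 * w0, fun H1 H2 hH hpos => ?_⟩
  set S : ℂ := H1 + H2 with hS
  have key : ∀ᶠ t : ℝ in 𝓝[>] 0,
      2 * S.re * w0 + t * ‖S‖ ^ 2 * w0 + (g * H2 * conj (1 + t * S)).re ≤ w (1 + H1, H2) - w0 := by
    have hlim : Tendsto (fun t : ℝ => (1 + t * S : ℂ)) (𝓝[>] 0) (𝓝 (1 + (0 : ℝ) * S)) := by
      have : Continuous (fun t : ℝ => (1 + t * S : ℂ)) := by fun_prop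
      exact (this.tendsto 0).mono_left nhdsWithin_le_nhds
    have hne : ∀ᶠ t : ℝ in 𝓝[>] 0, (1 + t * S : ℂ) ≠ 0 := by
      refine hlim.eventually_ne ?_
      simp
    have hle1 : ∀ᶠ t : ℝ in 𝓝[>] 0, t < 1 :=
      mem_of_superset (Ioo_mem_nhdsGT one_pos) fun t ht => ht.2
    filter_upwards [hne, hle1, self_mem_nhdsWithin] with t ht ht1 ht0
    have ht0' : (0 : ℝ) < t := ht0
    set s : ℂ := 1 + t * S with hs
    have hsp := small_pos H1 H2 hH hpos ht0'.le ht1
    have f1 : s * (1 - t * H2 / s) = 1 + t * H1 := by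
      rw [mul_sub, mul_div_cancel₀ _ ht, hs, hS]
      ring
    have f2 : s * (t * H2 / s) = t * H2 := mul_div_cancel₀ _ ht
    have hx : ‖t * H2 / s‖ < ‖1 - t * H2 / s‖ := by
      have h1 : ‖s * (t * H2 / s)‖ < ‖s * (1 - t * H2 / s)‖ := by
        rw [f1, f2]
        exact hsp
      rw [norm_mul, norm_mul] at h1
      exact lt_of_mul_lt_mul_left h1 (norm_nonneg _)
    have e1 : w (1 + t * H1, t * H2) = ‖s‖ ^ 2 * w (1 - t * H2 / s, t * H2 / s) := by
      have h1 := hw.inv s _ _ ht hx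
      rw [f1, f2] at h1
      exact h1
    have e2 := hg (t * H2 / s) hx
    have e3 := hw.roc (1, 0) (H1, H2) hH (by simp) (by simpa using hpos) t ht0'.le ht1.le
    have e4 : ((1 : ℂ), (0 : ℂ)) + t • (H1, H2) = (1 + t * H1, t * H2) := by
      ext1 <;> simp
    have e5 : ((1 : ℂ), (0 : ℂ)) + (H1, H2) = (1 + H1, H2) := by
      ext1 <;> simp
    rw [e4, e5, e1] at e3
    have e6 : ‖s‖ ^ 2 = 1 + 2 * t * S.re + t ^ 2 * ‖S‖ ^ 2 := by
      rw [hs, ← Complex.normSq_eq_norm_sq, ← Complex.normSq_eq_norm_sq, Complex.normSq_apply,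
        Complex.normSq_apply]
      simp
      ring
    have e7 : ‖s‖ ^ 2 * (g * (t * H2 / s)).re = t * (g * H2 * conj s).re := by
      have h1 : g * (t * H2 / s) = (g * (t * H2)) / s := by ring
      rw [h1, sq_mul_div s _ ht]
      have h2 : g * (t * H2) * conj s = (t : ℂ) * (g * H2 * conj s) := by ring
      rw [h2, Complex.re_ofReal_mul]
    have e8 : ‖s‖ ^ 2 * (w0 + (g * (t * H2 / s)).re) ≤ (1 - t) * w0 + t * w (1 + H1, H2) :=
      (mul_le_mul_of_nonneg_left e2 (by positivity)).trans e3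
    rw [mul_add, e7, e6] at e8
    have e9 : t * (2 * S.re * w0 + t * ‖S‖ ^ 2 * w0 + (g * H2 * conj s).re)
        ≤ t * (w (1 + H1, H2) - w0) := by linarith
    exact le_of_mul_le_mul_left e9 ht0'
  have hlim : Tendsto (fun t : ℝ => 2 * S.re * w0 + t * ‖S‖ ^ 2 * w0
      + (g * H2 * conj (1 + t * S)).re) (𝓝[>] 0)
      (𝓝 (2 * S.re * w0 + 0 * ‖S‖ ^ 2 * w0 + (g * H2 * conj (1 + (0 : ℝ) * S)).re)) := by
    have : Continuous (fun t : ℝ => 2 * S.re * w0 + t * ‖S‖ ^ 2 * w0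
      + (g * H2 * conj (1 + t * S)).re) := by fun_prop
    exact (this.tendsto 0).mono_left nhdsWithin_le_nhds
  have hfin := le_of_tendsto hlim key
  simp only [Complex.ofReal_zero, zero_mul, add_zero, map_one, mul_one] at hfin
  have e : ((g + 2 * w0) * H2).re = (g * H2).re + 2 * w0 * H2.re := by
    rw [add_mul, Complex.add_re]
    congr 1
    have : (2 * (w0 : ℂ)) * H2 = ((2 * w0 : ℝ) : ℂ) * H2 := by push_cast; ring
    rw [this, Complex.re_ofReal_mul]
  rw [e]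
  rw [hS, Complex.add_re] at hfin
  linarith

end Pool.Agent.N797.MR
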