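import Pool.Agent.N797.MR.PosS

/-! # Positive determinant: polyconvexity in degrees zero and two -/

set_option autoImplicit false

namespace Pool.Agent.N797.MR

open Set Filter Topology
open scoped ComplexConjugate

theorem inv_data (A : ℂ × ℂ) (hA : ‖A.2‖ < ‖A.1‖) (c0 : ℂ) :
    ∃ (m : ℝ) (L : (ℂ × ℂ) →ₗ[ℝ] ℂ) (G : ℂ × ℂ → ℂ × ℂ), 0 ≤ m ∧ (∀ F, cmp (G F) A = F) ∧
      G A = (1, 0) ∧
      (∀ F, ‖(G F).1‖ ^ 2 - ‖(G F).2‖ ^ 2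
        = (‖F.1‖ ^ 2 - ‖F.2‖ ^ 2) / (‖A.1‖ ^ 2 - ‖A.2‖ ^ 2)) ∧
      ∀ F, (c0 * (conj (G F).1 * (G F).2)).re + ‖c0‖ * ‖(G F).2‖ ^ 2
        = m * ‖L F‖ ^ 2 - m * ((‖F.1‖ ^ 2 - ‖F.2‖ ^ 2) / (‖A.1‖ ^ 2 - ‖A.2‖ ^ 2)) := by
  have hD' := (pos_iff A.1 A.2).1 hA
  set D : ℝ := ‖A.1‖ ^ 2 - ‖A.2‖ ^ 2 with hD
  have hD0 : D ≠ 0 := hD'.ne'
  have hDc : (D : ℂ) ≠ 0 := by exact_mod_cast hD0
  have hDe : (D : ℂ) = A.1 * conj A.1 - A.2 * conj A.2 := by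
    rw [Complex.mul_conj, Complex.mul_conj, hD, Complex.normSq_eq_norm_sq,
      Complex.normSq_eq_norm_sq]
    push_cast
    ring
  obtain ⟨u, hu, hcu⟩ := unit_of c0
  set al : ℂ × ℂ → ℂ := fun F => (F.1 * conj A.1 - F.2 * conj A.2) / D with hal
  set be : ℂ × ℂ → ℂ := fun F => (F.2 * A.1 - F.1 * A.2) / D with hbe
  have hcmp : ∀ F, cmp (al F, be F) A = F := by
    intro F
    simp only [cmp, hal, hbe]
    ext1
    · simp only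
      field_simp
      rw [hDe]
      ring
    · simp only
      field_simp
      rw [hDe]
      ring
  have hdet : ∀ F, ‖al F‖ ^ 2 - ‖be F‖ ^ 2 = (‖F.1‖ ^ 2 - ‖F.2‖ ^ 2) / D := by
    intro F
    have h2 := det_cmp (al F, be F) A
    rw [hcmp, ← hD] at h2
    rw [h2]
    field_simp
  have hlin : ∀ F : ℂ × ℂ, al F + u * be F
      = ((conj A.1 - u * A.2) / D) * F.1 + ((u * A.1 - conj A.2) / D) * F.2 := by
    intro F
    simp only [hal, hbe]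
    field_simp
    ring
  set L : ℂ × ℂ →ₗ[ℝ] ℂ :=
    { toFun := fun F => ((conj A.1 - u * A.2) / D) * F.1 + ((u * A.1 - conj A.2) / D) * F.2
      map_add' := fun F H => by simp only [Prod.fst_add, Prod.snd_add]; ring
      map_smul' := fun c F => by
        simp only [Prod.smul_fst, Prod.smul_snd, Complex.real_smul, RingHom.id_apply]; ring }
    with hL
  refine ⟨‖c0‖ / 2, L, fun F => (al F, be F), by positivity, hcmp, ?_, hdet, ?_⟩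
  · have h1 : al A = 1 := by
      simp only [hal]
      rw [hDe, div_self]
      rw [← hDe]
      exact hDc
    have h2 : be A = 0 := by
      simp only [hbe]
      rw [mul_comm, sub_self, zero_div]
    show (al A, be A) = (1, 0)
    rw [h1, h2]
  · intro F
    have h1 := re_key hu hcu (al F) (be F)
    rw [hdet, hlin] at h1
    exact h1

theorem cvx_sq (L : (ℂ × ℂ) →ₗ[ℝ] ℂ) {m : ℝ} (hm : 0 ≤ m) :
    ConvexOn ℝ univ (fun X : (ℂ × ℂ) × ℝ => m * ‖L X.1‖ ^ 2) := by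
  have h1 : ConvexOn ℝ univ (fun F : ℂ × ℂ => ‖L F‖) :=
    (convexOn_norm convex_univ).comp_linearMap L
  have h2 := (h1.pow (fun F _ => norm_nonneg _) 2).smul hm
  exact h2.comp_linearMap (LinearMap.fst ℝ (ℂ × ℂ) ℝ)

theorem cv_pos : Convex ℝ {X : (ℂ × ℂ) × ℝ | 0 < X.2} :=
  (convex_Ioi (0 : ℝ)).is_linear_preimage (f := fun X : (ℂ × ℂ) × ℝ => X.2)
    ⟨fun _ _ => rfl, fun _ _ => rfl⟩

theorem op_pos : IsOpen {X : (ℂ × ℂ) × ℝ | 0 < X.2} := isOpen_lt continuous_const continuous_snd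

/-- polyconvexity in degree zero -/
theorem Cp.poly0 {w : ℂ × ℂ → ℝ} (hw : Cp 0 w) :
    ∃ P : (ℂ × ℂ) × ℝ → ℝ, ConvexOn ℝ {X | 0 < X.2} P ∧
      ∀ F : ℂ × ℂ, ‖F.2‖ < ‖F.1‖ → w F = P (F, ‖F.1‖ ^ 2 - ‖F.2‖ ^ 2) := by
  refine mi_sup fun A hA => ?_
  obtain ⟨c0, hc⟩ := (hw.comp A hA).key0
  obtain ⟨m, L, G, hm, h1, h2, h3, h4⟩ := inv_data A hA c0
  have hD := (pos_iff A.1 A.2).1 hA
  have hw1 : w (cmp (1, 0) A) = w A := by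
    rw [← h2, h1]
  have hval : ∀ F : ℂ × ℂ, ‖F.2‖ < ‖F.1‖ → (w A - m) +
      (m * (‖A.1‖ ^ 2 - ‖A.2‖ ^ 2)) * ‖L F‖ ^ 2 / (‖F.1‖ ^ 2 - ‖F.2‖ ^ 2)
      = w A + ((c0 * (conj (G F).1 * (G F).2)).re + ‖c0‖ * ‖(G F).2‖ ^ 2) /
        (‖(G F).1‖ ^ 2 - ‖(G F).2‖ ^ 2) := by
    intro F hF
    have hF' := (pos_iff F.1 F.2).1 hF
    rw [h4, h3]
    have e1 := hD.ne'
    have e2 := hF'.ne'
    field_simp
    ring
  refine ⟨⟨fun X => (w A - m) + (m * (‖A.1‖ ^ 2 - ‖A.2‖ ^ 2)) * ‖L X.1‖ ^ 2 / X.2, ?_, ?_⟩, ?_⟩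
  · exact (convexOn_const _ cv_pos).add (cvx_quot L (mul_nonneg hm hD.le))
  · intro F hF
    have hG : ‖(G F).2‖ < ‖(G F).1‖ := by
      rw [pos_iff, h3]
      exact div_pos ((pos_iff _ _).1 hF) hD
    have h5 := hc (G F) hG
    beta_reduce at h5
    rw [h1, hw1, ← hval F hF] at h5
    exact h5
  · have h5 := hval A hA
    rw [h2] at h5
    simp only [map_one, mul_zero, Complex.zero_re, norm_zero, one_mul] at h5
    simpa using h5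

/-- polyconvexity in degree two -/
theorem Cp.poly2 {w : ℂ × ℂ → ℝ} (hw : Cp 2 w) :
    ∃ P : (ℂ × ℂ) × ℝ → ℝ, ConvexOn ℝ {X | 0 < X.2} P ∧
      ∀ F : ℂ × ℂ, ‖F.2‖ < ‖F.1‖ → w F = P (F, ‖F.1‖ ^ 2 - ‖F.2‖ ^ 2) := by
  refine mi_sup fun A hA => ?_
  obtain ⟨c0, hc⟩ := (hw.comp A hA).key2
  obtain ⟨m, L, G, hm, h1, h2, h3, h4⟩ := inv_data A hA c0
  have hD := (pos_iff A.1 A.2).1 hA
  have hw1 : w (cmp (1, 0) A) = w A := by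
    rw [← h2, h1]
  have hval : ∀ F : ℂ × ℂ, (w A - m) / (‖A.1‖ ^ 2 - ‖A.2‖ ^ 2) * (‖F.1‖ ^ 2 - ‖F.2‖ ^ 2)
      + m * ‖L F‖ ^ 2
      = w A * (‖(G F).1‖ ^ 2 - ‖(G F).2‖ ^ 2)
        + ((c0 * (conj (G F).1 * (G F).2)).re + ‖c0‖ * ‖(G F).2‖ ^ 2) := by
    intro F
    rw [h4, h3]
    ring
  refine ⟨⟨fun X => (w A - m) / (‖A.1‖ ^ 2 - ‖A.2‖ ^ 2) * X.2 + m * ‖L X.1‖ ^ 2, ?_, ?_⟩, ?_⟩
  · have g1 : ConvexOn ℝ univ (fun X : (ℂ × ℂ) × ℝ =>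
        (w A - m) / (‖A.1‖ ^ 2 - ‖A.2‖ ^ 2) * X.2) :=
      (((w A - m) / (‖A.1‖ ^ 2 - ‖A.2‖ ^ 2)) • LinearMap.snd ℝ (ℂ × ℂ) ℝ).convexOn convex_univ
    exact (g1.add (cvx_sq L hm)).subset (subset_univ _) cv_pos
  · intro F hF
    have hG : ‖(G F).2‖ < ‖(G F).1‖ := by
      rw [pos_iff, h3]
      exact div_pos ((pos_iff _ _).1 hF) hD
    have h5 := hc (G F) hG
    beta_reduce at h5
    rw [h1, hw1, ← hval F] at h5
    exact h5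
  · have h5 := hval A
    rw [h2] at h5
    simpa using h5

end Pool.Agent.N797.MR
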