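import Pool.Agent.N797.MR.Pos

/-! # Positive determinant: convex minorants and polyconvexity -/

set_option autoImplicit false

namespace Pool.Agent.N797.MR

open Set Filter Topology
open scoped ComplexConjugate

theorem pos_iff (a b : ℂ) : ‖b‖ < ‖a‖ ↔ 0 < ‖a‖ ^ 2 - ‖b‖ ^ 2 := by
  rw [sub_pos, sq_lt_sq₀ (norm_nonneg _) (norm_nonneg _)]

theorem add_ne {a b u : ℂ} (hu : ‖u‖ = 1) (h : ‖b‖ < ‖a‖) : a + u * b ≠ 0 := by
  intro h0
  have h1 : a = -(u * b) := eq_neg_of_add_eq_zero_left h0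
  have h2 : ‖a‖ = ‖b‖ := by rw [h1, norm_neg, norm_mul, hu, one_mul]
  rw [h2] at h
  exact lt_irrefl _ h

theorem unit_of (c0 : ℂ) : ∃ u : ℂ, ‖u‖ = 1 ∧ c0 = ‖c0‖ * u := by
  by_cases h : c0 = 0
  · exact ⟨1, by simp, by simp [h]⟩
  · have h' : (‖c0‖ : ℂ) ≠ 0 := by simpa using h
    refine ⟨c0 / ‖c0‖, ?_, by field_simp⟩
    rw [norm_div, Complex.norm_real, norm_norm, div_self]
    simpa using h

theorem re_key {c0 u : ℂ} (hu : ‖u‖ = 1) (hcu : c0 = ‖c0‖ * u) (a b : ℂ) :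
    (c0 * (conj a * b)).re + ‖c0‖ * ‖b‖ ^ 2
      = ‖c0‖ / 2 * ‖a + u * b‖ ^ 2 - ‖c0‖ / 2 * (‖a‖ ^ 2 - ‖b‖ ^ 2) := by
  have hu2 : u.re * u.re + u.im * u.im = 1 := by rw [← nsq, hu, one_pow]
  have h1 : (c0 * (conj a * b)).re = ‖c0‖ * (u * (conj a * b)).re := by
    conv_lhs => rw [hcu]
    rw [mul_assoc, Complex.re_ofReal_mul]
  rw [h1]
  simp only [nsq a, nsq b, nsq (a + u * b), Complex.mul_re, Complex.mul_im, Complex.add_re,
    Complex.add_im, Complex.conj_re, Complex.conj_im]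
  linear_combination (-(‖c0‖ / 2) * (b.re * b.re + b.im * b.im)) * hu2

/-- the bound at the identity, degree zero -/
theorem Cp.key0 {w : ℂ × ℂ → ℝ} (hw : Cp 0 w) : ∃ c0 : ℂ, ∀ F : ℂ × ℂ, ‖F.2‖ < ‖F.1‖ →
    w (1, 0) + ((c0 * (conj F.1 * F.2)).re + ‖c0‖ * ‖F.2‖ ^ 2) / (‖F.1‖ ^ 2 - ‖F.2‖ ^ 2) ≤ w F := by
  obtain ⟨c0, hc⟩ := hw.star0
  refine ⟨c0, fun F hF => ?_⟩
  obtain ⟨u, hu, hcu⟩ := unit_of c0
  obtain ⟨α, β⟩ := F
  simp only at hF ⊢
  have hδ := (pos_iff α β).1 hF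
  set δ : ℝ := ‖α‖ ^ 2 - ‖β‖ ^ 2 with hδd
  have hδc : (δ : ℂ) ≠ 0 := by exact_mod_cast hδ.ne'
  have hδe : (δ : ℂ) = α * conj α - β * conj β := by
    rw [Complex.mul_conj, Complex.mul_conj, hδd, Complex.normSq_eq_norm_sq,
      Complex.normSq_eq_norm_sq]
    push_cast
    ring
  have ha := add_ne hu hF
  set a := α + u * β with had
  set z : ℂ := conj a / δ with hz
  have hz0 : z ≠ 0 := div_ne_zero (by simpa using ha) hδc
  have huu : u * conj u = 1 := by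
    rw [Complex.mul_conj, Complex.normSq_eq_norm_sq, hu]
    simp
  have h1 : z * α - 1 = conj β * conj u * a / δ := by
    rw [hz, had]
    field_simp
    rw [hδe]
    simp only [map_add, map_mul]
    linear_combination (-(β * conj β)) * huu
  have h2 : ‖z * α - 1‖ = ‖z * β‖ := by
    rw [h1, hz]
    simp only [norm_mul, norm_div, RCLike.norm_conj, hu, mul_one]
    ring
  have h3 := hc (z * α - 1) (z * β) h2 (by
    have e : 1 + (z * α - 1) = z * α := by ring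
    rw [e, norm_mul, norm_mul]
    exact mul_lt_mul_of_pos_left hF (norm_pos_iff.2 hz0))
  have e : 1 + (z * α - 1) = z * α := by ring
  rw [e, hw.inv z α β hz0 hF, pow_zero, one_mul] at h3
  refine le_trans (le_of_eq ?_) h3
  congr 1
  have h4 : c0 * (z * β) = (c0 * (conj α * β) + ‖c0‖ * (β * conj β)) / δ := by
    rw [hz, had]
    have h5 : c0 * conj u = ‖c0‖ := by
      conv_lhs => rw [hcu]
      rw [mul_assoc, huu, mul_one]
    simp only [map_add, map_mul]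
    field_simp
    linear_combination (β * conj β) * h5
  rw [h4, Complex.div_ofReal_re, Complex.add_re, Complex.re_ofReal_mul, Complex.mul_conj,
    Complex.ofReal_re, Complex.normSq_eq_norm_sq]

/-- the bound at the identity, degree two -/
theorem Cp.key2 {w : ℂ × ℂ → ℝ} (hw : Cp 2 w) : ∃ c0 : ℂ, ∀ F : ℂ × ℂ, ‖F.2‖ < ‖F.1‖ →
    w (1, 0) * (‖F.1‖ ^ 2 - ‖F.2‖ ^ 2) + ((c0 * (conj F.1 * F.2)).re + ‖c0‖ * ‖F.2‖ ^ 2)
      ≤ w F := by
  obtain ⟨c0, hc⟩ := hw.star2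
  refine ⟨c0, fun F hF => ?_⟩
  obtain ⟨u, hu, hcu⟩ := unit_of c0
  obtain ⟨α, β⟩ := F
  simp only at hF ⊢
  have ha := add_ne hu hF
  set l := α + u * β with hl
  have hln : 0 < ‖l‖ := norm_pos_iff.2 ha
  have h3 := hc (-(u * β) / l) (β / l) (by
    rw [norm_div, norm_div, norm_neg, norm_mul, hu, one_mul]) (by
    have e : 1 + -(u * β) / l = α / l := by
      rw [eq_div_iff ha, add_mul, div_mul_cancel₀ _ ha, hl]
      ring
    rw [e, norm_div, norm_div]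
    exact div_lt_div_of_pos_right hF hln)
  have e : 1 + -(u * β) / l = α / l := by
    rw [eq_div_iff ha, add_mul, div_mul_cancel₀ _ ha, hl]
    ring
  rw [e] at h3
  have h4 := hw.inv l (α / l) (β / l) ha (by
    rw [norm_div, norm_div]
    exact div_lt_div_of_pos_right hF hln)
  rw [mul_div_cancel₀ _ ha, mul_div_cancel₀ _ ha] at h4
  rw [h4]
  have h5 := mul_le_mul_of_nonneg_left h3 (by positivity : 0 ≤ ‖l‖ ^ 2)
  refine le_trans (le_of_eq ?_) h5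
  have h6 := sq_mul_div l (-(u * β)) ha
  have h7 := sq_mul_div l (c0 * β) ha
  have e3 : c0 * (β / l) = c0 * β / l := by ring
  rw [e3]
  have e4 : ‖l‖ ^ 2 * (w (1, 0) + 2 * w (1, 0) * (-(u * β) / l).re + (c0 * β / l).re)
      = ‖l‖ ^ 2 * w (1, 0) + 2 * w (1, 0) * (-(u * β) * conj l).re + (c0 * β * conj l).re := by
    rw [← h6, ← h7]
    ring
  rw [e4, hl]
  have hu2 : u.re * u.re + u.im * u.im = 1 := by rw [← nsq, hu, one_pow]
  have g1 : (c0 * (conj α * β)).re = ‖c0‖ * (u * (conj α * β)).re := by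
    conv_lhs => rw [hcu]
    rw [mul_assoc, Complex.re_ofReal_mul]
  have g2 : (c0 * β * conj (α + u * β)).re = ‖c0‖ * (u * β * conj (α + u * β)).re := by
    conv_lhs => rw [hcu]
    rw [mul_assoc, mul_assoc, Complex.re_ofReal_mul, mul_assoc]
  rw [g1, g2]
  simp only [nsq, Complex.mul_re, Complex.mul_im, Complex.add_re, Complex.add_im,
    Complex.conj_re, Complex.conj_im, Complex.neg_re, Complex.neg_im, map_add, map_mul]
  linear_combination ((w (1, 0) - ‖c0‖) * (β.re * β.re + β.im * β.im)) * hu2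

theorem det_cmp (X A : ℂ × ℂ) : ‖(cmp X A).1‖ ^ 2 - ‖(cmp X A).2‖ ^ 2
    = (‖X.1‖ ^ 2 - ‖X.2‖ ^ 2) * (‖A.1‖ ^ 2 - ‖A.2‖ ^ 2) := by
  simp only [cmp, nsq, Complex.mul_re, Complex.mul_im, Complex.add_re, Complex.add_im,
    Complex.conj_re, Complex.conj_im]
  ring

theorem pos_cmp {X A : ℂ × ℂ} (hA : ‖A.2‖ < ‖A.1‖) (hX : ‖X.2‖ < ‖X.1‖) :
    ‖(cmp X A).2‖ < ‖(cmp X A).1‖ := by
  rw [pos_iff] at hA hX ⊢
  rw [det_cmp]
  positivity

theorem Cp.comp {p : ℕ} {w : ℂ × ℂ → ℝ} (hw : Cp p w) (A : ℂ × ℂ) (hA : ‖A.2‖ < ‖A.1‖) :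
    Cp p (fun F => w (cmp F A)) where
  inv := by
    intro l a b hl hab
    have h := hw.inv l (a * A.1 + b * conj A.2) (a * A.2 + b * conj A.1) hl
      (pos_cmp (X := (a, b)) hA hab)
    simp only [cmp]
    rw [← h]
    congr 2 <;> ring
  roc := by
    intro F H hH hF hFH t h0 h1
    have e1 : cmp (F + t • H) A = cmp F A + t • cmp H A := by
      unfold cmp
      ext1
      · simp; ring
      · simp; ring
    have e2 : cmp (F + H) A = cmp F A + cmp H A := by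
      unfold cmp
      ext1
      · simp; ring
      · simp; ring
    have h4 := pos_cmp hA hFH
    rw [e2] at h4
    simp only [e1, e2]
    refine hw.roc _ _ ?_ (pos_cmp hA hF) h4 t h0 h1
    have h2 : ‖H.1‖ ^ 2 - ‖H.2‖ ^ 2 = 0 := by rw [hH, sub_self]
    have h3 : ‖(cmp H A).1‖ ^ 2 = ‖(cmp H A).2‖ ^ 2 := by
      have := det_cmp H A
      rw [h2, zero_mul] at this
      linarith
    exact (sq_eq_sq₀ (norm_nonneg _) (norm_nonneg _)).1 h3

/-- convex minorants -/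
def Mi (w : ℂ × ℂ → ℝ) : Type :=
  {T : (ℂ × ℂ) × ℝ → ℝ // ConvexOn ℝ {X | 0 < X.2} T ∧
    ∀ F : ℂ × ℂ, ‖F.2‖ < ‖F.1‖ → T (F, ‖F.1‖ ^ 2 - ‖F.2‖ ^ 2) ≤ w F}

theorem orth (z : ℂ) : ∃ e : ℂ, ‖e‖ = 1 ∧ (conj z * e).re = 0 := by
  by_cases h : z = 0
  · exact ⟨1, by simp, by simp [h]⟩
  · have h' : ‖z‖ ≠ 0 := by simpa using h
    refine ⟨Complex.I * z / ‖z‖, ?_, ?_⟩
    · rw [norm_div, norm_mul, Complex.norm_I, one_mul, Complex.norm_real, norm_norm, div_self h']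
    · have e : conj z * (Complex.I * z / ‖z‖) = Complex.I * ((z * conj z) / ‖z‖) := by ring
      rw [e, Complex.mul_conj, ← Complex.ofReal_div]
      simp

theorem mi_bdd {w : ℂ × ℂ → ℝ} (X : (ℂ × ℂ) × ℝ) (hX : 0 < X.2) :
    BddAbove (range fun T : Mi w => T.1 X) := by
  obtain ⟨Y, hY1, hY2⟩ : ∃ Y : ℂ × ℂ, ‖(X.1 + Y).1‖ ^ 2 - ‖(X.1 + Y).2‖ ^ 2 = X.2 ∧
      ‖(X.1 - Y).1‖ ^ 2 - ‖(X.1 - Y).2‖ ^ 2 = X.2 := by
    set d := X.2 - (‖X.1.1‖ ^ 2 - ‖X.1.2‖ ^ 2) with hd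
    rcases le_total 0 d with h | h
    · obtain ⟨e, he, hze⟩ := orth X.1.1
      refine ⟨(((√d : ℝ) : ℂ) * e, 0), ?_, ?_⟩
      · have h1 : √d * √d = d := Real.mul_self_sqrt h
        have h2 : e.re * e.re + e.im * e.im = 1 := by rw [← nsq, he, one_pow]
        rw [Complex.mul_re, Complex.conj_re, Complex.conj_im] at hze
        simp only [nsq, Prod.fst_add, Prod.snd_add, Complex.add_re, Complex.add_im, Complex.mul_re,
          Complex.mul_im, Complex.ofReal_re, Complex.ofReal_im, Complex.zero_re,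
          Complex.zero_im] at hd ⊢
        linear_combination 2 * √d * hze + (√d * √d) * h2 + h1 + hd
      · have h1 : √d * √d = d := Real.mul_self_sqrt h
        have h2 : e.re * e.re + e.im * e.im = 1 := by rw [← nsq, he, one_pow]
        rw [Complex.mul_re, Complex.conj_re, Complex.conj_im] at hze
        simp only [nsq, Prod.fst_sub, Prod.snd_sub, Complex.sub_re, Complex.sub_im, Complex.mul_re,
          Complex.mul_im, Complex.ofReal_re, Complex.ofReal_im, Complex.zero_re,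
          Complex.zero_im] at hd ⊢
        linear_combination (-2) * √d * hze + (√d * √d) * h2 + h1 + hd
    · obtain ⟨e, he, hze⟩ := orth X.1.2
      refine ⟨(0, ((√(-d) : ℝ) : ℂ) * e), ?_, ?_⟩
      · have h1 : √(-d) * √(-d) = -d := Real.mul_self_sqrt (by linarith)
        have h2 : e.re * e.re + e.im * e.im = 1 := by rw [← nsq, he, one_pow]
        rw [Complex.mul_re, Complex.conj_re, Complex.conj_im] at hze
        simp only [nsq, Prod.fst_add, Prod.snd_add, Complex.add_re, Complex.add_im, Complex.mul_re,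
          Complex.mul_im, Complex.ofReal_re, Complex.ofReal_im, Complex.zero_re,
          Complex.zero_im] at hd ⊢
        linear_combination (-2) * √(-d) * hze - (√(-d) * √(-d)) * h2 - h1 + hd
      · have h1 : √(-d) * √(-d) = -d := Real.mul_self_sqrt (by linarith)
        have h2 : e.re * e.re + e.im * e.im = 1 := by rw [← nsq, he, one_pow]
        rw [Complex.mul_re, Complex.conj_re, Complex.conj_im] at hze
        simp only [nsq, Prod.fst_sub, Prod.snd_sub, Complex.sub_re, Complex.sub_im, Complex.mul_re,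
          Complex.mul_im, Complex.ofReal_re, Complex.ofReal_im, Complex.zero_re,
          Complex.zero_im] at hd ⊢
        linear_combination 2 * √(-d) * hze - (√(-d) * √(-d)) * h2 - h1 + hd
  have hX' : X = (1 / 2 : ℝ) • (X.1 + Y, ‖(X.1 + Y).1‖ ^ 2 - ‖(X.1 + Y).2‖ ^ 2)
      + (1 / 2 : ℝ) • (X.1 - Y, ‖(X.1 - Y).1‖ ^ 2 - ‖(X.1 - Y).2‖ ^ 2) := by
    ext1
    · show X.1 = (1 / 2 : ℝ) • (X.1 + Y) + (1 / 2 : ℝ) • (X.1 - Y)
      module
    · show X.2 = (1 / 2 : ℝ) • (‖(X.1 + Y).1‖ ^ 2 - ‖(X.1 + Y).2‖ ^ 2)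
        + (1 / 2 : ℝ) • (‖(X.1 - Y).1‖ ^ 2 - ‖(X.1 - Y).2‖ ^ 2)
      rw [hY1, hY2]
      simp only [smul_eq_mul]
      ring
  have p1 : ‖(X.1 + Y).2‖ < ‖(X.1 + Y).1‖ := by rw [pos_iff, hY1]; exact hX
  have p2 : ‖(X.1 - Y).2‖ < ‖(X.1 - Y).1‖ := by rw [pos_iff, hY2]; exact hX
  refine ⟨1 / 2 * w (X.1 + Y) + 1 / 2 * w (X.1 - Y), ?_⟩
  rintro _ ⟨T, rfl⟩
  have h1 := T.2.1.2 (show (X.1 + Y, ‖(X.1 + Y).1‖ ^ 2 - ‖(X.1 + Y).2‖ ^ 2) ∈
      {X : (ℂ × ℂ) × ℝ | 0 < X.2} from (pos_iff _ _).1 p1)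
    (show (X.1 - Y, ‖(X.1 - Y).1‖ ^ 2 - ‖(X.1 - Y).2‖ ^ 2) ∈
      {X : (ℂ × ℂ) × ℝ | 0 < X.2} from (pos_iff _ _).1 p2)
    (show (0 : ℝ) ≤ 1 / 2 by norm_num) (show (0 : ℝ) ≤ 1 / 2 by norm_num) (by norm_num)
  rw [← hX'] at h1
  simp only [smul_eq_mul] at h1
  have h2 := T.2.2 _ p1
  have h3 := T.2.2 _ p2
  simp only
  linarith

theorem mi_sup {w : ℂ × ℂ → ℝ}
    (h : ∀ A : ℂ × ℂ, ‖A.2‖ < ‖A.1‖ → ∃ T : Mi w, T.1 (A, ‖A.1‖ ^ 2 - ‖A.2‖ ^ 2) = w A) :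
    ∃ P : (ℂ × ℂ) × ℝ → ℝ, ConvexOn ℝ {X | 0 < X.2} P ∧
      ∀ F : ℂ × ℂ, ‖F.2‖ < ‖F.1‖ → w F = P (F, ‖F.1‖ ^ 2 - ‖F.2‖ ^ 2) := by
  have hne : Nonempty (Mi w) := ⟨(h (1, 0) (by simp)).choose⟩
  have hcv : Convex ℝ {X : (ℂ × ℂ) × ℝ | 0 < X.2} :=
    (convex_Ioi (0 : ℝ)).is_linear_preimage (f := fun X : (ℂ × ℂ) × ℝ => X.2)
      ⟨fun _ _ => rfl, fun _ _ => rfl⟩
  refine ⟨fun X => ⨆ T : Mi w, T.1 X, ⟨hcv, fun X hX Y hY a b ha hb hab => ?_⟩, fun F hF => ?_⟩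
  · refine ciSup_le fun T => ?_
    refine (T.2.1.2 hX hY ha hb hab).trans ?_
    refine add_le_add ?_ ?_
    · exact mul_le_mul_of_nonneg_left (le_ciSup (mi_bdd X hX) T) ha
    · exact mul_le_mul_of_nonneg_left (le_ciSup (mi_bdd Y hY) T) hb
  · refine le_antisymm ?_ (ciSup_le fun T => T.2.2 F hF)
    obtain ⟨T, hT⟩ := h F hF
    rw [← hT]
    exact le_ciSup (mi_bdd (F, ‖F.1‖ ^ 2 - ‖F.2‖ ^ 2) ((pos_iff _ _).1 hF)) T

end Pool.Agent.N797.MR
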