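import Pool.Agent.N797.MR.Supp

/-! # Frame-indifferent functions of degree two: quasiconvexity -/

set_option autoImplicit false

namespace Pool.Agent.N797.MR

open Set Filter Topology MeasureTheory
open scoped ComplexConjugate
open Pool.Agent.W360.MQ (cab QA Quasiconvex)
open Pool.Agent.W360.BQ (QCF)
open Pool.Agent.W488.IW (V Idx gd box)
open Pool.Agent.W978.MQ (G gd_cont w_int)

/-- the convex part of the supports -/
theorem cvx_part (m : ℝ) (hm : 0 ≤ m) (p q : ℂ) :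
    ConvexOn ℝ univ (fun F : ℂ × ℂ => m * ‖p * F.1 + q * F.2‖ ^ 2) := by
  set L : ℂ × ℂ →ₗ[ℝ] ℂ :=
    { toFun := fun F => p * F.1 + q * F.2
      map_add' := fun F H => by simp; ring
      map_smul' := fun c F => by simp; ring } with hL
  have h1 : ConvexOn ℝ univ (fun F : ℂ × ℂ => ‖L F‖) :=
    (convexOn_norm convex_univ).comp_linearMap L
  have h2 := (h1.pow (fun F _ => norm_nonneg _) 2).smul hm
  exact h2

theorem supp_G (c m : ℝ) (hm : 0 ≤ m) (p q : ℂ) :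
    G (fun F : ℂ × ℂ => c * (‖F.1‖ ^ 2 - ‖F.2‖ ^ 2) + m * ‖p * F.1 + q * F.2‖ ^ 2) := by
  have hc1 : Continuous (fun F : ℂ × ℂ => c * (‖F.1‖ ^ 2 - ‖F.2‖ ^ 2)) := by fun_prop
  have hc2 : Continuous (fun F : ℂ × ℂ => m * ‖p * F.1 + q * F.2‖ ^ 2) := by fun_prop
  exact G.add ⟨hc1, Pool.Agent.W925.MQ.Det.main c⟩
    ⟨hc2, Pool.Agent.W465.MQ.CVX.main _ (cvx_part m hm p q) hc2⟩

theorem Cl.qcf {w : ℂ × ℂ → ℝ} (hw : Cl w) (A : ℂ × ℂ) (hA : ‖A.1‖ ≠ ‖A.2‖) : QCF w A := by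
  intro N c
  obtain ⟨c', m, p, q, hm, h1, h2⟩ := hw.supp A hA
  have hG := supp_G c' m hm p q
  have h3 := hG.2 A N c
  simp only at h3
  rw [h2] at h3
  refine h3.trans ?_
  exact setIntegral_mono (w_int hG.1 A _ c) (w_int hw.cont A _ c) fun x => h1 _

/-- quasiconvexity at every point -/
theorem Cl.qa {w : ℂ × ℂ → ℝ} (hw : Cl w) : QA w := by
  intro F0 N c
  have hc : Continuous (fun F : ℂ × ℂ => ∫ x in Icc (0 : V) 1, w (F + gd (box N) c x)) := by
    refine continuous_parametric_integral_of_continuous ?_ isCompact_Icc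
    exact hw.cont.comp (continuous_fst.add ((gd_cont (box N) c).comp continuous_snd))
  have hcl : IsClosed {F : ℂ × ℂ | w F ≤ ∫ x in Icc (0 : V) 1, w (F + gd (box N) c x)} :=
    isClosed_le hw.cont hc
  exact (closure_minimal (fun F hF => hw.qcf F hF N c) hcl) (dense_ne F0)

theorem Cl.quas {w : ℂ × ℂ → ℝ} (hw : Cl w) : Quasiconvex (fun A => w (cab A)) :=
  Pool.Agent.W360.MQ.All.om w hw.cont hw.qa

end Pool.Agent.N797.MR
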