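import Mathlib

/-! # Subgradients, and the function `|z|² / δ` -/

set_option autoImplicit false

namespace Pool.Agent.N797.MR

open Set Filter Topology

theorem subgr {E : Type*} [NormedAddCommGroup E] [NormedSpace ℝ E] [FiniteDimensional ℝ E]
    {U : Set E} (hU : IsOpen U) {φ : E → ℝ} (hφ : ConvexOn ℝ U φ) {x0 : E} (h0 : x0 ∈ U) :
    ∃ l : E →L[ℝ] ℝ, ∀ x ∈ U, φ x0 + l (x - x0) ≤ φ x := by
  have hcont : ContinuousOn φ U := hφ.continuousOn hU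
  set S : Set (E × ℝ) := {p | p.1 ∈ U ∧ φ p.1 < p.2} with hS
  have hSc : Convex ℝ S := hφ.convex_strict_epigraph
  have hSo : IsOpen S := by
    have h1 : ContinuousOn (fun p : E × ℝ => p.2 - φ p.1) (Prod.fst ⁻¹' U) :=
      continuousOn_snd.sub (hcont.comp continuousOn_fst fun p hp => hp)
    have h2 := h1.isOpen_inter_preimage (hU.preimage continuous_fst) (isOpen_Ioi (a := (0 : ℝ)))
    have e : S = Prod.fst ⁻¹' U ∩ (fun p : E × ℝ => p.2 - φ p.1) ⁻¹' Ioi 0 := by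
      ext p
      simp [hS]
    rw [e]
    exact h2
  have hnot : (x0, φ x0) ∉ S := fun h => lt_irrefl _ h.2
  obtain ⟨f, hf⟩ := geometric_hahn_banach_open_point hSc hSo hnot
  set c : ℝ := f (0, 1) with hc
  have hfe : ∀ (x : E) (r : ℝ), f (x, r) = f (x, 0) + r * c := by
    intro x r
    have e : (x, r) = (x, (0 : ℝ)) + r • ((0 : E), (1 : ℝ)) := by
      ext1 <;> simp
    rw [e, map_add, map_smul, smul_eq_mul]
  have hc0 : c < 0 := by
    have h1 := hf (x0, φ x0 + 1) ⟨h0, by simp⟩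
    rw [hfe, hfe x0 (φ x0)] at h1
    linarith
  refine ⟨(-c)⁻¹ • f.comp (ContinuousLinearMap.inl ℝ E ℝ), fun x hx => ?_⟩
  have h1 : f (x, 0) + φ x * c ≤ f (x0, 0) + φ x0 * c := by
    refine le_of_forall_pos_lt_add fun ε hε => ?_
    have h2 := hf (x, φ x + ε / (-c)) ⟨hx, by
      have : 0 < ε / (-c) := div_pos hε (by linarith)
      simpa using this⟩
    rw [hfe, hfe x0 (φ x0)] at h2
    have h3 : (φ x + ε / (-c)) * c = φ x * c - ε := by
      have : c ≠ 0 := hc0.ne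
      field_simp
      ring
    rw [h3] at h2
    linarith
  have h2 : ((-c)⁻¹ • f.comp (ContinuousLinearMap.inl ℝ E ℝ)) (x - x0) =
      (-c)⁻¹ * (f (x, 0) - f (x0, 0)) := by
    simp only [smul_apply, ContinuousLinearMap.comp_apply,
      ContinuousLinearMap.inl_apply, smul_eq_mul]
    congr 1
    rw [← map_sub]
    simp
  rw [h2]
  have h3 : (-c)⁻¹ * (f (x, 0) - f (x0, 0)) ≤ (-c)⁻¹ * ((-c) * (φ x - φ x0)) := by
    refine mul_le_mul_of_nonneg_left ?_ (inv_nonneg.2 (by linarith))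
    nlinarith
  have h4 : (-c)⁻¹ * ((-c) * (φ x - φ x0)) = φ x - φ x0 := by
    have : -c ≠ 0 := by linarith
    exact inv_mul_cancel_left₀ this _
  linarith

/-- the function `|z|² / δ` is convex for `δ > 0` -/
theorem cvx_quot (L : (ℂ × ℂ) →ₗ[ℝ] ℂ) {m : ℝ} (hm : 0 ≤ m) :
    ConvexOn ℝ {X : (ℂ × ℂ) × ℝ | 0 < X.2} (fun X => m * ‖L X.1‖ ^ 2 / X.2) := by
  have hcv : Convex ℝ {X : (ℂ × ℂ) × ℝ | 0 < X.2} :=
    (convex_Ioi (0 : ℝ)).is_linear_preimage (f := fun X : (ℂ × ℂ) × ℝ => X.2)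
      ⟨fun _ _ => rfl, fun _ _ => rfl⟩
  refine ⟨hcv, ?_⟩
  intro X hX Y hY a b ha hb hab
  have hX' : 0 < X.2 := hX
  have hY' : 0 < Y.2 := hY
  have hZ : 0 < a * X.2 + b * Y.2 := hcv hX hY ha hb hab
  have hn : ‖L (a • X + b • Y).1‖ ≤ a * ‖L X.1‖ + b * ‖L Y.1‖ := by
    have e : L (a • X + b • Y).1 = a • L X.1 + b • L Y.1 := by
      rw [Prod.fst_add, Prod.smul_fst, Prod.smul_fst, map_add, map_smul, map_smul]
    rw [e]
    refine (norm_add_le _ _).trans ?_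
    rw [norm_smul, norm_smul, Real.norm_of_nonneg ha, Real.norm_of_nonneg hb]
  have h2 : (a • X + b • Y).2 = a * X.2 + b * Y.2 := rfl
  simp only [smul_eq_mul]
  rw [h2]
  set r := ‖L X.1‖ with hr
  set s := ‖L Y.1‖ with hs
  have hr0 : 0 ≤ r := norm_nonneg _
  have hs0 : 0 ≤ s := norm_nonneg _
  have h3 : ‖L (a • X + b • Y).1‖ ^ 2 ≤ (a * r + b * s) ^ 2 :=
    pow_le_pow_left₀ (norm_nonneg _) hn 2
  have h4 : (a * r + b * s) ^ 2 ≤ (a * X.2 + b * Y.2) * (a * (r ^ 2 / X.2) + b * (s ^ 2 / Y.2)) := by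
    obtain ⟨x, hx⟩ : ∃ x, r = x * X.2 := ⟨r / X.2, by field_simp⟩
    obtain ⟨y, hy⟩ : ∃ y, s = y * Y.2 := ⟨s / Y.2, by field_simp⟩
    rw [hx, hy]
    have e1 : (x * X.2) ^ 2 / X.2 = x ^ 2 * X.2 := by field_simp
    have e2 : (y * Y.2) ^ 2 / Y.2 = y ^ 2 * Y.2 := by field_simp
    rw [e1, e2]
    have h5 : 0 ≤ a * X.2 * (b * Y.2) * (x - y) ^ 2 := by positivity
    nlinarith
  rw [div_le_iff₀ hZ]
  calc m * ‖L (a • X + b • Y).1‖ ^ 2
      ≤ m * ((a * X.2 + b * Y.2) * (a * (r ^ 2 / X.2) + b * (s ^ 2 / Y.2))) :=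
        mul_le_mul_of_nonneg_left (h3.trans h4) hm
    _ = (a * (m * r ^ 2 / X.2) + b * (m * s ^ 2 / Y.2)) * (a * X.2 + b * Y.2) := by ring

end Pool.Agent.N797.MR
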